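import Pool.Agent.Lib.MP_28303a_al.TW.Graph

/-! # The tree of `SL₂` of a discretely valued field

The vertices are the squared norms divided by the volume: the functions
`(x, y) ↦ max (exp h * |x - a y|²) (exp (-h) * |y|²)` on `K × K`, with `a` in `K` and `h` an
integer.  Two vertices are adjacent if they are different and each of them is at most `exp 1` times
the other one. -/

set_option autoImplicit false

namespace Pool.Agent.NegK.TT.H76

universe u

open WithZero
open Matrix (SpecialLinearGroup)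
open Pool.Agent.NegK.TW

section tree

variable {V : Type u} (G : SimpleGraph V) (par : V → V) (ht : V → ℤ)

/-- A graph given by a parent function is a tree. -/
theorem isTree_of_parent [Nonempty V] (hadj : ∀ x y, G.Adj x y ↔ (y = par x ∨ x = par y))
    (hht : ∀ x, ht (par x) = ht x - 1)
    (hconn : ∀ x y, ∃ m n : ℕ, par^[m] x = par^[n] y) : G.IsTree := by
  have hit : ∀ (n : ℕ) x, ht (par^[n] x) = ht x - n := by
    intro n
    induction n with
    | zero => intro x; simp
    | succ n ih =>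
      intro x
      rw [Function.iterate_succ_apply', hht, ih]
      push_cast
      ring
  have hre : ∀ (n : ℕ) x, G.Reachable x (par^[n] x) := by
    intro n
    induction n with
    | zero => intro x; exact SimpleGraph.Reachable.refl _
    | succ n ih =>
      intro x
      rw [Function.iterate_succ_apply']
      exact (ih x).trans ((hadj _ _).2 (Or.inl rfl)).reachable
  have hbr : ∀ x, G.IsBridge s(x, par x) := by
    intro x
    rw [SimpleGraph.isBridge_iff]
    rintro ⟨p⟩
    have key : ∀ {z w : V} (p : (G.deleteEdges {s(x, par x)}).Walk z w),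
        (∃ n : ℕ, par^[n] z = x) → ∃ n : ℕ, par^[n] w = x := by
      intro z w p
      induction p with
      | nil => exact id
      | cons hab _ ih =>
        rename_i a b c _
        intro ⟨n, hn⟩
        apply ih
        rw [SimpleGraph.deleteEdges_adj] at hab
        obtain ⟨h1, h2⟩ := hab
        rcases (hadj _ _).1 h1 with h | h
        · rcases n with _ | n
          · exfalso
            apply h2
            simp only [Function.iterate_zero, id_eq] at hn
            rw [hn] at h
            rw [hn, h]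
            exact Set.mem_singleton _
          · refine ⟨n, ?_⟩
            rw [h, ← Function.iterate_succ_apply, hn]
        · refine ⟨n + 1, ?_⟩
          rw [Function.iterate_succ_apply, ← h, hn]
    obtain ⟨n, hn⟩ := key p ⟨0, rfl⟩
    have h1 := hit n (par x)
    rw [hn, hht] at h1
    omega
  refine { preconnected := ?_, isAcyclic := ?_ }
  · intro x y
    obtain ⟨m, n, h⟩ := hconn x y
    have h1 := hre m x
    rw [h] at h1
    exact h1.trans (hre n y).symm
  · rw [SimpleGraph.isAcyclic_iff_forall_adj_isBridge]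
    intro x y h
    rcases (hadj _ _).1 h with h | h
    · rw [h]; exact hbr x
    · rw [h, Sym2.eq_swap]; exact hbr y

end tree

section val

variable {K : Type u} [Field K] (v : Valuation K ℤᵐ⁰)

/-- The squared norm with center `a` and height `h`. -/
noncomputable def Qf (a : K) (h : ℤ) (x y : K) : ℤᵐ⁰ :=
  max (exp h * v (x - a * y) ^ 2) (exp (-h) * v y ^ 2)

theorem exp_inj' {a b : ℤ} (h : (exp a : ℤᵐ⁰) = exp b) : a = b := exp_injective h

theorem exp_mul_exp_neg (h : ℤ) : (exp h : ℤᵐ⁰) * exp (-h) = 1 := by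
  rw [← exp_add, add_neg_cancel, exp_zero]

theorem Qf_one_zero (a : K) (h : ℤ) : Qf v a h 1 0 = exp h := by
  simp [Qf]

theorem Qf_center (a : K) (h : ℤ) : Qf v a h a 1 = exp (-h) := by
  simp [Qf]

theorem Qf_center' (a a' : K) (h : ℤ) :
    Qf v a h a' 1 = max (exp h * v (a' - a) ^ 2) (exp (-h)) := by
  simp [Qf]

/-- A change of center by an element of the ball does not change the norm. -/
theorem Qf_le_of_ball {a a' : K} {h : ℤ} (hb : v (a' - a) ≤ exp (-h)) (x y : K) :
    Qf v a' h x y ≤ Qf v a h x y := by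
  unfold Qf
  refine max_le ?_ (le_max_right _ _)
  have h1 : x - a' * y = (x - a * y) + -((a' - a) * y) := by ring
  have h2 : v (x - a' * y) ≤ max (v (x - a * y)) (v (a' - a) * v y) := by
    rw [h1, ← map_mul, ← Valuation.map_neg v ((a' - a) * y)]
    exact v.map_add _ _
  rcases le_total (v (x - a * y)) (v (a' - a) * v y) with h3 | h3
  · rw [max_eq_right h3] at h2
    refine le_trans ?_ (le_max_right _ _)
    calc exp h * v (x - a' * y) ^ 2 ≤ exp h * (exp (-h) * v y) ^ 2 := by
          gcongr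
          exact h2.trans (by gcongr)
      _ = (exp h * exp (-h)) * (exp (-h) * v y ^ 2) := by
          simp only [sq]
          ac_rfl
      _ = exp (-h) * v y ^ 2 := by rw [exp_mul_exp_neg, one_mul]
  · rw [max_eq_left h3] at h2
    refine le_trans ?_ (le_max_left _ _)
    gcongr

theorem Qf_eq_of_ball {a a' : K} {h : ℤ} (hb : v (a' - a) ≤ exp (-h)) :
    Qf v a' h = Qf v a h := by
  funext x y
  refine le_antisymm (Qf_le_of_ball v hb x y) (Qf_le_of_ball v ?_ x y)
  rw [← Valuation.map_neg v (a - a'), neg_sub]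
  exact hb

/-- Extraction of the radius. -/
theorem ball_of_le {t : ℤᵐ⁰} {h k : ℤ} (h1 : exp h * t ^ 2 ≤ exp (k - h)) (hk : k ≤ 1) :
    t ≤ exp (-h) := by
  rcases eq_or_ne t 0 with rfl | ht
  · exact zero_le
  · rw [← exp_log ht] at h1 ⊢
    rw [← exp_nsmul, ← exp_add, exp_le_exp] at h1
    rw [exp_le_exp]
    simp only [nsmul_eq_mul, Nat.cast_ofNat] at h1
    omega

theorem ball_of_le' {t : ℤᵐ⁰} {h k : ℤ} (h1 : exp h * t ^ 2 ≤ exp (k - h)) (hk : k ≤ 2) :
    t ≤ exp (1 - h) := by
  rcases eq_or_ne t 0 with rfl | ht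
  · exact zero_le
  · rw [← exp_log ht] at h1 ⊢
    rw [← exp_nsmul, ← exp_add, exp_le_exp] at h1
    rw [exp_le_exp]
    simp only [nsmul_eq_mul, Nat.cast_ofNat] at h1
    omega

theorem Qf_eq_iff {a a' : K} {h h' : ℤ} :
    Qf v a h = Qf v a' h' ↔ h = h' ∧ v (a - a') ≤ exp (-h) := by
  constructor
  · intro e
    have h1 : h = h' := by
      have := congrFun (congrFun e 1) 0
      rw [Qf_one_zero, Qf_one_zero] at this
      exact exp_inj' this
    subst h1
    refine ⟨rfl, ?_⟩
    have h2 := congrFun (congrFun e a) 1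
    rw [Qf_center, Qf_center'] at h2
    refine ball_of_le (k := 0) ?_ (by norm_num)
    rw [zero_sub, h2]
    exact le_max_left _ _
  · rintro ⟨rfl, h2⟩
    exact Qf_eq_of_ball v h2

/-- A pair of linear forms of determinant `1` in the good order. -/
theorem form1 (p q r s : K) (hd : p * s - q * r = 1) (h : ℤ)
    (hle : exp (-h) * v r ^ 2 ≤ exp h * v p ^ 2) :
    ∃ (a' : K) (k : ℤ), ∀ x y, max (exp h * v (p * x + q * y) ^ 2)
      (exp (-h) * v (r * x + s * y) ^ 2) = Qf v a' (h + 2 * k) x y := by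
  have hp : p ≠ 0 := by
    rintro rfl
    have h1 : exp (-h) * v r ^ 2 = 0 := by
      apply le_antisymm _ zero_le
      simpa using hle
    have h2 : r = 0 := by
      rcases mul_eq_zero.1 h1 with h3 | h3
      · exact absurd h3 exp_ne_zero
      · exact (map_eq_zero v).1 (pow_eq_zero_iff (two_ne_zero) |>.1 h3)
    rw [h2] at hd
    simp at hd
  have hvp : v p ≠ 0 := (map_ne_zero v).2 hp
  refine ⟨-q / p, log (v p), fun x y => ?_⟩
  have e1 : exp h * v (p * x + q * y) ^ 2 = exp (h + 2 * log (v p)) * v (x - -q / p * y) ^ 2 := by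
    have h1 : p * x + q * y = p * (x - -q / p * y) := by field_simp; ring
    have h2 : (exp (h + 2 * log (v p)) : ℤᵐ⁰) = exp h * v p ^ 2 := by
      rw [two_mul, exp_add, exp_add, exp_log hvp, sq]
    rw [h1, h2, map_mul, mul_pow, mul_assoc]
  have e2 : exp (-(h + 2 * log (v p))) * v y ^ 2 = exp (-h) * v (y / p) ^ 2 := by
    have h2 : (exp (-(h + 2 * log (v p))) : ℤᵐ⁰) = exp (-h) * (v p ^ 2)⁻¹ := by
      rw [neg_add, exp_add, exp_neg (2 * log (v p)), two_mul, exp_add, exp_log hvp, sq]
    rw [h2, map_div₀, div_pow, div_eq_mul_inv]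
    ac_rfl
  have hs : r * x + s * y = r / p * (p * x + q * y) + y / p := by
    field_simp
    linear_combination y * hd
  have hA : exp (-h) * v (r / p * (p * x + q * y)) ^ 2 ≤ exp h * v (p * x + q * y) ^ 2 := by
    rw [map_mul, mul_pow, map_div₀, div_pow]
    calc exp (-h) * (v r ^ 2 / v p ^ 2 * v (p * x + q * y) ^ 2)
        = (exp (-h) * v r ^ 2) * (v p ^ 2)⁻¹ * v (p * x + q * y) ^ 2 := by
          rw [div_eq_mul_inv]
          ac_rfl
      _ ≤ (exp h * v p ^ 2) * (v p ^ 2)⁻¹ * v (p * x + q * y) ^ 2 := by gcongr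
      _ = exp h * v (p * x + q * y) ^ 2 := by
          rw [mul_assoc (exp h) (v p ^ 2) _, mul_inv_cancel₀ (pow_ne_zero 2 hvp), mul_one]
  unfold Qf
  rw [← e1, e2]
  -- both sides are equal by the ultrametric inequality
  apply le_antisymm
  · refine max_le (le_max_left _ _) ?_
    have h3 := v.map_add (r / p * (p * x + q * y)) (y / p)
    rw [← hs] at h3
    rcases le_total (v (r / p * (p * x + q * y))) (v (y / p)) with h4 | h4
    · rw [max_eq_right h4] at h3
      refine le_trans ?_ (le_max_right _ _)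
      gcongr
    · rw [max_eq_left h4] at h3
      refine le_trans ?_ (le_max_left _ _)
      refine le_trans ?_ hA
      gcongr
  · refine max_le (le_max_left _ _) ?_
    have h5 : y / p = (r * x + s * y) + -(r / p * (p * x + q * y)) := by rw [hs]; ring
    have h3 := v.map_add (r * x + s * y) (-(r / p * (p * x + q * y)))
    rw [← h5, Valuation.map_neg] at h3
    rcases le_total (v (r * x + s * y)) (v (r / p * (p * x + q * y))) with h4 | h4
    · rw [max_eq_right h4] at h3
      refine le_trans ?_ (le_max_left _ _)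
      refine le_trans ?_ hA
      gcongr
    · rw [max_eq_left h4] at h3
      refine le_trans ?_ (le_max_right _ _)
      gcongr

theorem form (p q r s : K) (hd : p * s - q * r = 1) (h : ℤ) :
    ∃ (a' : K) (h' : ℤ), Even (h' - h) ∧ ∀ x y, max (exp h * v (p * x + q * y) ^ 2)
      (exp (-h) * v (r * x + s * y) ^ 2) = Qf v a' h' x y := by
  rcases le_total (exp (-h) * v r ^ 2) (exp h * v p ^ 2) with hle | hle
  · obtain ⟨a', k, hk⟩ := form1 v p q r s hd h hle
    exact ⟨a', h + 2 * k, ⟨k, by ring⟩, hk⟩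
  · obtain ⟨a', k, hk⟩ := form1 v r s (-p) (-q) (by linear_combination hd) (-h)
      (by rw [neg_neg, Valuation.map_neg]; exact hle)
    refine ⟨a', -h + 2 * k, ⟨k - h, by ring⟩, fun x y => ?_⟩
    rw [← hk x y, max_comm, neg_neg]
    have h1 : -p * x + -q * y = -(p * x + q * y) := by ring
    rw [h1, Valuation.map_neg]

/-- The vertices. -/
def Vx : Type u := {Q : K → K → ℤᵐ⁰ // ∃ a h, Q = Qf v a h}

theorem act_mem (g : SpecialLinearGroup (Fin 2) K) (a : K) (h : ℤ) :
    ∃ (a' : K) (h' : ℤ), Even (h' - h) ∧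
      (fun x y => Qf v a h (x * g.1 0 0 + y * g.1 1 0) (x * g.1 0 1 + y * g.1 1 1)) =
        Qf v a' h' := by
  have hdet : g.1 0 0 * g.1 1 1 - g.1 0 1 * g.1 1 0 = 1 := by
    have := g.2
    rwa [Matrix.det_fin_two] at this
  obtain ⟨a', h', he, hf⟩ := form v (g.1 0 0 - a * g.1 0 1) (g.1 1 0 - a * g.1 1 1) (g.1 0 1)
    (g.1 1 1) (by linear_combination hdet) h
  refine ⟨a', h', he, ?_⟩
  funext x y
  rw [← hf x y, Qf]
  congr 3
  · congr 1
    ring
  · congr 1
    ring

noncomputable instance instAct : MulAction (SpecialLinearGroup (Fin 2) K) (Vx v) where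
  smul g Q := ⟨fun x y => Q.1 (x * g.1 0 0 + y * g.1 1 0) (x * g.1 0 1 + y * g.1 1 1), by
    obtain ⟨Q, a, h, rfl⟩ := Q
    obtain ⟨a', h', -, he⟩ := act_mem v g a h
    exact ⟨a', h', he⟩⟩
  one_smul Q := by
    apply Subtype.ext
    funext x y
    change Q.1 _ _ = _
    simp
  mul_smul g g' Q := by
    apply Subtype.ext
    funext x y
    change Q.1 _ _ = Q.1 _ _
    have e : ∀ i j, (g * g').1 i j = g.1 i 0 * g'.1 0 j + g.1 i 1 * g'.1 1 j := by
      intro i j
      change (g.1 * g'.1) i j = _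
      rw [Matrix.mul_apply, Fin.sum_univ_two]
    rw [e, e, e, e]
    rw [show x * (g.1 0 0 * g'.1 0 0 + g.1 0 1 * g'.1 1 0) +
        y * (g.1 1 0 * g'.1 0 0 + g.1 1 1 * g'.1 1 0) =
      (x * g.1 0 0 + y * g.1 1 0) * g'.1 0 0 + (x * g.1 0 1 + y * g.1 1 1) * g'.1 1 0 by ring,
      show x * (g.1 0 0 * g'.1 0 1 + g.1 0 1 * g'.1 1 1) +
        y * (g.1 1 0 * g'.1 0 1 + g.1 1 1 * g'.1 1 1) =
      (x * g.1 0 0 + y * g.1 1 0) * g'.1 0 1 + (x * g.1 0 1 + y * g.1 1 1) * g'.1 1 1 by ring]

theorem smul_val (g : SpecialLinearGroup (Fin 2) K) (Q : Vx v) (x y : K) :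
    (g • Q).1 x y = Q.1 (x * g.1 0 0 + y * g.1 1 0) (x * g.1 0 1 + y * g.1 1 1) := rfl

/-- The vertex with center `a` and height `h`. -/
noncomputable def vx (a : K) (h : ℤ) : Vx v := ⟨Qf v a h, a, h, rfl⟩

theorem exists_vx (Q : Vx v) : ∃ a h, Q = vx v a h := by
  obtain ⟨Q, a, h, rfl⟩ := Q
  exact ⟨a, h, rfl⟩

theorem vx_eq_iff {a a' : K} {h h' : ℤ} :
    vx v a h = vx v a' h' ↔ h = h' ∧ v (a - a') ≤ exp (-h) := by
  rw [← Qf_eq_iff]
  exact ⟨fun h => congrArg Subtype.val h, fun h => Subtype.ext h⟩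

/-- The center. -/
noncomputable def cen (Q : Vx v) : K := (exists_vx v Q).choose

/-- The height. -/
noncomputable def hgt (Q : Vx v) : ℤ := (exists_vx v Q).choose_spec.choose

theorem vx_cen (Q : Vx v) : vx v (cen v Q) (hgt v Q) = Q :=
  (exists_vx v Q).choose_spec.choose_spec.symm

theorem hgt_vx (a : K) (h : ℤ) : hgt v (vx v a h) = h :=
  ((vx_eq_iff v).1 (vx_cen v (vx v a h))).1

theorem cen_vx (a : K) (h : ℤ) : v (cen v (vx v a h) - a) ≤ exp (-h) := by
  have := ((vx_eq_iff v).1 (vx_cen v (vx v a h))).2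
  rwa [hgt_vx] at this

/-- The parent. -/
noncomputable def par (Q : Vx v) : Vx v := vx v (cen v Q) (hgt v Q - 1)

theorem par_vx (a : K) (h : ℤ) : par v (vx v a h) = vx v a (h - 1) := by
  rw [par, vx_eq_iff, hgt_vx]
  refine ⟨rfl, (cen_vx v a h).trans ?_⟩
  rw [exp_le_exp]
  omega

theorem hgt_par (Q : Vx v) : hgt v (par v Q) = hgt v Q - 1 := hgt_vx v _ _

theorem par_iter (a : K) (h : ℤ) (n : ℕ) : (par v)^[n] (vx v a h) = vx v a (h - n) := by
  induction n with
  | zero => simp
  | succ n ih =>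
    rw [Function.iterate_succ_apply', ih, par_vx]
    congr 1
    push_cast
    ring

/-- The graph. -/
def gr : SimpleGraph (Vx v) where
  Adj Q Q' := Q ≠ Q' ∧ (∀ x y, Q.1 x y ≤ exp 1 * Q'.1 x y) ∧ ∀ x y, Q'.1 x y ≤ exp 1 * Q.1 x y
  symm := ⟨fun _ _ h => ⟨h.1.symm, h.2.2, h.2.1⟩⟩
  loopless := ⟨fun _ h => h.1 rfl⟩

theorem adj_par (Q : Vx v) : (gr v).Adj Q (par v Q) := by
  refine ⟨?_, ?_, ?_⟩
  · intro h
    have := hgt_par v Q
    rw [← h] at this
    omega
  all_goals
    intro x y
    obtain ⟨a, h, rfl⟩ := exists_vx v Q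
    rw [par_vx]
    change Qf v a _ x y ≤ exp 1 * Qf v a _ x y
    unfold Qf
    rw [mul_max, ← mul_assoc, ← mul_assoc, ← exp_add, ← exp_add]
    refine max_le_max ?_ ?_
    all_goals
      refine mul_le_mul' ?_ le_rfl
      rw [exp_le_exp]
      omega

theorem adj_iff (Q Q' : Vx v) : (gr v).Adj Q Q' ↔ (Q' = par v Q ∨ Q = par v Q') := by
  constructor
  · rintro ⟨hne, h1, h2⟩
    obtain ⟨a, h, rfl⟩ := exists_vx v Q
    obtain ⟨a', h', rfl⟩ := exists_vx v Q'
    have e1 : h ≤ h' + 1 := by
      have := h1 1 0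
      change Qf v a h 1 0 ≤ exp 1 * Qf v a' h' 1 0 at this
      rw [Qf_one_zero, Qf_one_zero, ← exp_add, exp_le_exp] at this
      omega
    have e2 : h' ≤ h + 1 := by
      have := h2 1 0
      change Qf v a' h' 1 0 ≤ exp 1 * Qf v a h 1 0 at this
      rw [Qf_one_zero, Qf_one_zero, ← exp_add, exp_le_exp] at this
      omega
    have e3 : exp h * v (a' - a) ^ 2 ≤ exp (1 - h') := by
      have := h1 a' 1
      change Qf v a h a' 1 ≤ exp 1 * Qf v a' h' a' 1 at this
      rw [Qf_center', Qf_center, ← exp_add] at this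
      exact (le_max_left _ _).trans this
    have e4 : exp h' * v (a - a') ^ 2 ≤ exp (1 - h) := by
      have := h2 a 1
      change Qf v a' h' a 1 ≤ exp 1 * Qf v a h a 1 at this
      rw [Qf_center', Qf_center, ← exp_add] at this
      exact (le_max_left _ _).trans this
    rw [par_vx, par_vx, vx_eq_iff, vx_eq_iff]
    rcases lt_trichotomy h' h with hlt | heq | hlt
    · left
      have hh : h' = h - 1 := by omega
      refine ⟨hh, ?_⟩
      rw [hh] at e3 ⊢
      have := ball_of_le' (h := h) (k := 2) (t := v (a' - a)) (by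
        convert e3 using 2; ring) le_rfl
      convert this using 2
      ring
    · exfalso
      subst heq
      apply hne
      rw [vx_eq_iff]
      exact ⟨rfl, ball_of_le (k := 1) e4 le_rfl⟩
    · right
      have hh : h' = h + 1 := by omega
      refine ⟨by omega, ?_⟩
      subst hh
      have := ball_of_le' (h := h + 1) (k := 2) (t := v (a - a')) (by
        convert e4 using 2; ring) le_rfl
      convert this using 2
      ring
  · rintro (rfl | rfl)
    · exact adj_par v Q
    · exact (adj_par v Q').symm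

theorem isTree : (gr v).IsTree := by
  haveI : Nonempty (Vx v) := ⟨vx v 0 0⟩
  refine isTree_of_parent (gr v) (par v) (hgt v) (adj_iff v) (hgt_par v) ?_
  intro Q Q'
  obtain ⟨a, h, rfl⟩ := exists_vx v Q
  obtain ⟨a', h', rfl⟩ := exists_vx v Q'
  obtain ⟨m, hm1, hm2, hm3⟩ : ∃ m : ℤ, m ≤ h ∧ m ≤ h' ∧ v (a - a') ≤ exp (-m) := by
    refine ⟨min (min h h') (-log (v (a - a'))), ?_, ?_, ?_⟩
    · exact (min_le_left _ _).trans (min_le_left _ _)
    · exact (min_le_left _ _).trans (min_le_right _ _)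
    · rcases eq_or_ne (v (a - a')) 0 with h0 | h0
      · rw [h0]; exact zero_le
      · conv_lhs => rw [← exp_log h0]
        rw [exp_le_exp]
        have := min_le_right (min h h') (-log (v (a - a')))
        omega
  refine ⟨(h - m).toNat, (h' - m).toNat, ?_⟩
  rw [par_iter, par_iter, vx_eq_iff]
  have e1 : h - ((h - m).toNat : ℤ) = m := by omega
  have e2 : h' - ((h' - m).toNat : ℤ) = m := by omega
  rw [e1, e2]
  exact ⟨rfl, hm3⟩

theorem hgt_smul (g : SpecialLinearGroup (Fin 2) K) (Q : Vx v) :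
    Even (hgt v (g • Q) - hgt v Q) := by
  obtain ⟨a, h, rfl⟩ := exists_vx v Q
  obtain ⟨a', h', he, hf⟩ := act_mem v g a h
  have : g • vx v a h = vx v a' h' := Subtype.ext hf
  rw [this, hgt_vx, hgt_vx]
  exact he

theorem treeAct : TreeAct (SpecialLinearGroup (Fin 2) K) (gr v) := by
  refine ⟨isTree v, ?_, ?_⟩
  · rintro g Q Q' ⟨hne, h1, h2⟩
    exact ⟨fun h => hne (smul_left_cancel g h), fun x y => h1 _ _, fun x y => h2 _ _⟩
  · rintro g Q Q' hadj ⟨h1, -⟩
    have h3 := hgt_smul v g Q
    rw [h1] at h3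
    rcases (adj_iff v Q Q').1 hadj with h | h
    · rw [h, hgt_par] at h3
      obtain ⟨r, hr⟩ := h3
      omega
    · have h4 := hgt_par v Q'
      rw [← h] at h4
      obtain ⟨r, hr⟩ := h3
      omega

theorem Qf_add_le (a : K) (h : ℤ) (x y x' y' : K) :
    Qf v a h (x + x') (y + y') ≤ max (Qf v a h x y) (Qf v a h x' y') := by
  have key : ∀ (c : ℤᵐ⁰) (s t : K), c * v (s + t) ^ 2 ≤ max (c * v s ^ 2) (c * v t ^ 2) := by
    intro c s t
    have h1 := v.map_add s t
    rcases le_total (v s) (v t) with h2 | h2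
    · rw [max_eq_right h2] at h1
      exact le_trans (by gcongr) (le_max_right _ _)
    · rw [max_eq_left h2] at h1
      exact le_trans (by gcongr) (le_max_left _ _)
  unfold Qf
  have h1 : x + x' - a * (y + y') = (x - a * y) + (x' - a * y') := by ring
  rw [h1]
  refine max_le ((key _ _ _).trans (max_le_max (le_max_left _ _) (le_max_left _ _)))
    ((key _ _ _).trans (max_le_max (le_max_right _ _) (le_max_right _ _)))

/-- An element with a fixed vertex has an integral trace. -/
theorem trace_le (g : SpecialLinearGroup (Fin 2) K) (Q : Vx v) (hg : g • Q = Q) :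
    v (g.1.trace) ≤ 1 := by
  obtain ⟨a, h, rfl⟩ := exists_vx v Q
  have hdet : g.1 0 0 * g.1 1 1 - g.1 0 1 * g.1 1 0 = 1 := by
    have := g.2
    rwa [Matrix.det_fin_two] at this
  have e : ∀ x y, Qf v a h (x * g.1 0 0 + y * g.1 1 0) (x * g.1 0 1 + y * g.1 1 1) =
      Qf v a h x y := by
    intro x y
    exact congrFun (congrFun (congrArg Subtype.val hg) x) y
  -- the inverse
  have e' : Qf v a h (g.1 1 1) (-g.1 0 1) = Qf v a h 1 0 := by
    rw [← e]
    congr 1
    · linear_combination hdet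
    · ring
  have e1 : Qf v a h (g.1 0 0) (g.1 0 1) = Qf v a h 1 0 := by
    have := e 1 0
    simpa using this
  have h1 := Qf_add_le v a h (g.1 0 0) (g.1 0 1) (g.1 1 1) (-g.1 0 1)
  rw [e', e1, max_self, add_neg_cancel, Qf_one_zero] at h1
  have h2 : Qf v a h (g.1 0 0 + g.1 1 1) 0 = exp h * v (g.1.trace) ^ 2 := by
    rw [Matrix.trace_fin_two]
    simp [Qf]
  rw [h2] at h1
  have h3 : v (g.1.trace) ^ 2 ≤ 1 := by
    have h4 : (exp (-h) : ℤᵐ⁰) * (exp h * v (g.1.trace) ^ 2) ≤ exp (-h) * exp h := by gcongr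
    rwa [← mul_assoc, ← exp_add, neg_add_cancel, exp_zero, one_mul] at h4
  exact (pow_le_one_iff (two_ne_zero)).1 h3

end val

/-- **Row BT**: `SL₂` of a field with a valuation in the integers acts on a tree without inversions,
such that every element with a fixed vertex has an integral trace. -/
theorem bt (K : Type u) [Field K] (v : Valuation K ℤᵐ⁰) :
    ∃ (V : Type u) (_ : MulAction (SpecialLinearGroup (Fin 2) K) V) (G : SimpleGraph V),
      TreeAct (SpecialLinearGroup (Fin 2) K) G ∧
      ∀ (g : SpecialLinearGroup (Fin 2) K) (x : V), g • x = x → v (g.1.trace) ≤ 1 :=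
  ⟨Vx v, instAct v, gr v, treeAct v, fun g x h => trace_le v g x h⟩

end Pool.Agent.NegK.TT.H76
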