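import Pool.Agent.Lib.MP_28303a_al.TT.Sl2
import Pool.Agent.Lib.MP_28303a_al.TT.H76.BT

set_option autoImplicit false

namespace Pool.Agent.NegK.TT.H76

universe u

theorem btStatement : BtStatement.{u} := fun K _ v _ => bt K v

end Pool.Agent.NegK.TT.H76
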