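import Pool.Agent.Lib.MP_28303a_al.TT.Defs

/-! # TC: combinatorics of a tree with finite subtrees -/

set_option autoImplicit false
set_option linter.unusedSectionVars false
set_option linter.unusedVariables false

namespace Pool.Agent.NegK.TT

open Pool.Agent.NegK.TW

universe u v

section

variable {Γ : Type u} [Group Γ] {V E : Type u} [MulAction Γ V] [MulAction Γ E]

open Classical in
/-- The boundary of the edge `e`, `t e - o e`. -/
noncomputable def bd (T : OTree Γ V E) (e : E) (w : V) : ℤ :=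
  (if w = T.t e then 1 else 0) - (if w = T.o e then 1 else 0)

open Classical in
/-- A finite subtree with vertices `V₀` and edges `E₀`, with a contraction `N` of its augmented
chain complex. -/
structure FSub (T : OTree Γ V E) (b : V) (V₀ : Finset V) (E₀ : Finset E) (N : V → E → ℤ) :
    Prop where
  hb : b ∈ V₀
  ends : ∀ e ∈ E₀, T.o e ∈ V₀ ∧ T.t e ∈ V₀
  nb : ∀ v ∈ V₀, ∀ w ∈ V₀,
    ∑ e ∈ E₀, N v e * bd T e w + (if w = b then 1 else 0) = if w = v then 1 else 0
  bn : ∀ e ∈ E₀, ∀ e' ∈ E₀, ∑ w ∈ V₀, bd T e w * N w e' = if e = e' then 1 else 0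

theorem sum_bd (T : OTree Γ V E) {A : Type v} [AddCommGroup A] {V₀ : Finset V} {e : E}
    (ho : T.o e ∈ V₀) (ht : T.t e ∈ V₀) (f : V → A) :
    ∑ w ∈ V₀, bd T e w • f w = f (T.t e) - f (T.o e) := by
  classical
  have h1 : ∀ w ∈ V₀, bd T e w • f w =
      (if w = T.t e then f w else 0) - (if w = T.o e then f w else 0) := by
    intro w _
    unfold bd
    rw [sub_smul]
    congr 1
    · split_ifs
      · rw [one_smul]
      · rw [zero_smul]
    · split_ifs
      · rw [one_smul]
      · rw [zero_smul]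
  rw [Finset.sum_congr rfl h1, Finset.sum_sub_distrib, Finset.sum_ite_eq' V₀ (T.t e) f,
    Finset.sum_ite_eq' V₀ (T.o e) f, if_pos ht, if_pos ho]

/-- Every finite set of vertices lies in a finite subtree. -/
theorem exists_fsub {T : OTree Γ V E} {b : V} (hT : T.Subtrees b) (F : Finset V) :
    ∃ (V₀ : Finset V) (E₀ : Finset E) (N : V → E → ℤ), F ⊆ V₀ ∧ FSub T b V₀ E₀ N := by
  classical
  obtain ⟨V₀, E₀, hb, hF, hends, B, N, hBN, hNB, hB1, hB2⟩ := hT F
  have hNu : ∀ v : V₀, N v (Sum.inr ()) = 1 := by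
    intro v
    have h1 : ∑ w : V₀, (N * B) v w = 1 := by
      rw [hNB]
      simp [Matrix.one_apply]
    have h2 : ∀ w : V₀, (N * B) v w =
        ∑ e : E₀, N v (Sum.inl e) * bd T e w + N v (Sum.inr ()) * (if (w : V) = b then 1 else 0) := by
      intro w
      rw [Matrix.mul_apply, Fintype.sum_sum_type]
      congr 1
      · refine Finset.sum_congr rfl fun e _ => ?_
        rw [hB1]; rfl
      · rw [Fintype.sum_unique]
        show N v (Sum.inr ()) * B (Sum.inr ()) w = _
        rw [hB2]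
    rw [Finset.sum_congr rfl (fun w _ => h2 w), Finset.sum_add_distrib, Finset.sum_comm] at h1
    have h3 : ∀ e : E₀, ∑ w : V₀, N v (Sum.inl e) * bd T e w = 0 := by
      intro e
      rw [← Finset.mul_sum, Finset.sum_coe_sort V₀ (fun w => bd T e w)]
      have := sum_bd T (hends e e.2).1 (hends e e.2).2 (fun _ => (1 : ℤ))
      simp only [smul_eq_mul, mul_one, sub_self] at this
      rw [this, mul_zero]
    have h4 : ∑ w : V₀, N v (Sum.inr ()) * (if (w : V) = b then 1 else 0) = N v (Sum.inr ()) := by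
      rw [← Finset.mul_sum, Finset.sum_coe_sort V₀ (fun w => if w = b then (1 : ℤ) else 0),
        Finset.sum_ite_eq' V₀ b, if_pos hb, mul_one]
    rw [Finset.sum_congr rfl (fun e _ => h3 e), Finset.sum_const_zero, zero_add, h4] at h1
    exact h1
  refine ⟨V₀, E₀, fun v e => if h : v ∈ V₀ ∧ e ∈ E₀ then N ⟨v, h.1⟩ (Sum.inl ⟨e, h.2⟩) else 0,
    hF, hb, hends, ?_, ?_⟩
  · intro v hv w hw
    have h1 := congrFun (congrFun hNB ⟨v, hv⟩) ⟨w, hw⟩
    rw [Matrix.mul_apply, Fintype.sum_sum_type] at h1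
    have h2 : ∑ e ∈ E₀, (if h : v ∈ V₀ ∧ e ∈ E₀ then N ⟨v, h.1⟩ (Sum.inl ⟨e, h.2⟩) else 0) *
        bd T e w = ∑ e : E₀, N ⟨v, hv⟩ (Sum.inl e) * B (Sum.inl e) ⟨w, hw⟩ := by
      rw [← Finset.sum_coe_sort E₀]
      refine Finset.sum_congr rfl fun e _ => ?_
      rw [dif_pos ⟨hv, e.2⟩, hB1]
      rfl
    rw [h2]
    have h3 : ∑ i : Unit, N ⟨v, hv⟩ (Sum.inr i) * B (Sum.inr i) ⟨w, hw⟩ =
        if w = b then 1 else 0 := by
      rw [Fintype.sum_unique]
      show N ⟨v, hv⟩ (Sum.inr ()) * B (Sum.inr ()) ⟨w, hw⟩ = _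
      rw [hNu, hB2, one_mul]
    rw [h3] at h1
    rw [h1, Matrix.one_apply]
    by_cases hvw : w = v
    · rw [if_pos (Subtype.ext hvw.symm), if_pos hvw]
    · rw [if_neg (fun h => hvw (congrArg Subtype.val h).symm), if_neg hvw]
  · intro e he e' he'
    have h1 := congrFun (congrFun hBN (Sum.inl ⟨e, he⟩)) (Sum.inl ⟨e', he'⟩)
    rw [Matrix.mul_apply] at h1
    have h2 : ∑ w ∈ V₀, bd T e w *
        (if h : w ∈ V₀ ∧ e' ∈ E₀ then N ⟨w, h.1⟩ (Sum.inl ⟨e', h.2⟩) else 0) =
        ∑ w : V₀, B (Sum.inl ⟨e, he⟩) w * N w (Sum.inl ⟨e', he'⟩) := by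
      rw [← Finset.sum_coe_sort V₀]
      refine Finset.sum_congr rfl fun w _ => ?_
      rw [dif_pos ⟨w.2, he'⟩, hB1]
      rfl
    rw [h2, h1, Matrix.one_apply]
    by_cases hee : e = e'
    · subst hee
      rw [if_pos rfl, if_pos rfl]
    · rw [if_neg hee, if_neg]
      intro h
      have := Sum.inl_injective h
      exact hee (congrArg Subtype.val this)

variable {T : OTree Γ V E} {b : V} {V₀ : Finset V} {E₀ : Finset E} {N : V → E → ℤ}

/-- The fundamental theorem of calculus on a finite subtree. -/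
theorem FSub.sum_sub (h : FSub T b V₀ E₀ N) {A : Type v} [AddCommGroup A] (f : V → A) {v : V}
    (hv : v ∈ V₀) : ∑ e ∈ E₀, N v e • (f (T.t e) - f (T.o e)) = f v - f b := by
  classical
  have h1 : ∀ e ∈ E₀, N v e • (f (T.t e) - f (T.o e)) =
      ∑ w ∈ V₀, (N v e * bd T e w) • f w := by
    intro e he
    rw [← sum_bd T (h.ends e he).1 (h.ends e he).2 f, Finset.smul_sum]
    refine Finset.sum_congr rfl fun w _ => ?_
    rw [mul_smul]
  rw [Finset.sum_congr rfl h1, Finset.sum_comm]
  have h2 : ∀ w ∈ V₀, ∑ e ∈ E₀, (N v e * bd T e w) • f w =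
      (if w = v then f w else 0) - (if w = b then f w else 0) := by
    intro w hw
    rw [← Finset.sum_smul]
    have h3 := h.nb v hv w hw
    have h4 : ∑ e ∈ E₀, N v e * bd T e w =
        (if w = v then 1 else 0) - (if w = b then 1 else 0) := by
      rw [← h3]; ring
    rw [h4, sub_smul]
    congr 1
    · split_ifs
      · rw [one_smul]
      · rw [zero_smul]
    · split_ifs
      · rw [one_smul]
      · rw [zero_smul]
  rw [Finset.sum_congr rfl h2, Finset.sum_sub_distrib, Finset.sum_ite_eq' V₀ v f,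
    Finset.sum_ite_eq' V₀ b f, if_pos hv, if_pos h.hb]

/-- Chains with boundary zero vanish. -/
theorem FSub.inj (h : FSub T b V₀ E₀ N) {A : Type v} [AddCommGroup A] (y : E → A)
    (hy : ∀ w ∈ V₀, ∑ e ∈ E₀, bd T e w • y e = 0) : ∀ e ∈ E₀, y e = 0 := by
  classical
  intro e he
  have h1 : ∑ w ∈ V₀, N w e • ∑ e' ∈ E₀, bd T e' w • y e' = 0 :=
    Finset.sum_eq_zero fun w hw => by rw [hy w hw, smul_zero]
  have h2 : ∑ w ∈ V₀, N w e • ∑ e' ∈ E₀, bd T e' w • y e' =
      ∑ e' ∈ E₀, (∑ w ∈ V₀, bd T e' w * N w e) • y e' := by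
    simp only [Finset.smul_sum, Finset.sum_smul]
    rw [Finset.sum_comm]
    refine Finset.sum_congr rfl fun e' _ => Finset.sum_congr rfl fun w _ => ?_
    rw [smul_smul, mul_comm]
  rw [h2] at h1
  have h3 : ∀ e' ∈ E₀, (∑ w ∈ V₀, bd T e' w * N w e) • y e' = if e' = e then y e' else 0 := by
    intro e' he'
    rw [h.bn e' he' e he]
    split_ifs
    · rw [one_smul]
    · rw [zero_smul]
  rw [Finset.sum_congr rfl h3, Finset.sum_ite_eq' E₀ e y, if_pos he] at h1
  exact h1

/-- A `0`-chain of degree zero is a boundary. -/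
theorem FSub.exact (h : FSub T b V₀ E₀ N) {A : Type v} [AddCommGroup A] (x : V → A)
    (hx : ∑ v ∈ V₀, x v = 0) {w : V} (hw : w ∈ V₀) :
    ∑ e ∈ E₀, bd T e w • ∑ v ∈ V₀, N v e • x v = x w := by
  classical
  have h1 : ∑ e ∈ E₀, bd T e w • ∑ v ∈ V₀, N v e • x v =
      ∑ v ∈ V₀, (∑ e ∈ E₀, N v e * bd T e w) • x v := by
    simp only [Finset.smul_sum, Finset.sum_smul]
    rw [Finset.sum_comm]
    refine Finset.sum_congr rfl fun v _ => Finset.sum_congr rfl fun e _ => ?_
    rw [smul_smul, mul_comm]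
  have h2 : ∀ v ∈ V₀, (∑ e ∈ E₀, N v e * bd T e w) • x v =
      (if v = w then x v else 0) - (if w = b then (1 : ℤ) else 0) • x v := by
    intro v hv
    have h3 : ∑ e ∈ E₀, N v e * bd T e w =
        (if w = v then 1 else 0) - (if w = b then 1 else 0) := by
      rw [← h.nb v hv w hw]; ring
    rw [h3, sub_smul]
    congr 1
    by_cases hvw : v = w
    · rw [if_pos hvw.symm, if_pos hvw, one_smul]
    · rw [if_neg (Ne.symm hvw), if_neg hvw, zero_smul]
  rw [h1, Finset.sum_congr rfl h2, Finset.sum_sub_distrib, Finset.sum_ite_eq' V₀ w x, if_pos hw,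
    ← Finset.smul_sum, hx, smul_zero, sub_zero]

/-! ### Sides of an edge -/

open Classical in
/-- The indicator function of `H e`. -/
noncomputable def hh (T : OTree Γ V E) (e : E) (v : V) : ℤ := if v ∈ T.H e then 1 else 0

theorem hh_t (T : OTree Γ V E) (e : E) : hh T e (T.t e) = 1 := if_pos (T.t_mem e)

theorem hh_o (T : OTree Γ V E) (e : E) : hh T e (T.o e) = 0 := if_neg (T.o_notMem e)

theorem hh_cross (T : OTree Γ V E) {e e' : E} (h : e' ≠ e) : hh T e (T.t e') = hh T e (T.o e') := by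
  unfold hh
  by_cases h1 : T.o e' ∈ T.H e
  · rw [if_pos h1, if_pos ((T.cross e e' h).1 h1)]
  · rw [if_neg h1, if_neg (fun h2 => h1 ((T.cross e e' h).2 h2))]

theorem o_ne_t (T : OTree Γ V E) (e : E) : T.o e ≠ T.t e := fun h => T.o_notMem e (h ▸ T.t_mem e)

/-- CONN: functions which are constant across all edges are constant. -/
theorem conn (hT : T.Subtrees b) {A : Type v} [AddCommGroup A] {f : V → A}
    (hf : ∀ e, f (T.t e) = f (T.o e)) (v w : V) : f v = f w := by
  have key : ∀ x, f x = f b := by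
    intro x
    obtain ⟨V₀, E₀, N, hF, h⟩ := exists_fsub hT {x}
    have h1 := h.sum_sub f (hF (Finset.mem_singleton_self x))
    rw [Finset.sum_eq_zero] at h1
    · exact (sub_eq_zero.1 h1.symm)
    · intro e _
      rw [hf, sub_self, smul_zero]
  rw [key v, key w]

/-- CONN for predicates. -/
theorem conn_prop (hT : T.Subtrees b) {p : V → Prop} (hp : ∀ e, p (T.t e) ↔ p (T.o e)) (v w : V)
    (h : p v) : p w := by
  classical
  have h1 : ∀ e, (if p (T.t e) then (1 : ℤ) else 0) = if p (T.o e) then (1 : ℤ) else 0 := by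
    intro e
    by_cases h2 : p (T.t e)
    · rw [if_pos h2, if_pos ((hp e).1 h2)]
    · rw [if_neg h2, if_neg (fun h3 => h2 ((hp e).2 h3))]
  have h2 := conn hT (f := fun x => if p x then (1 : ℤ) else 0) h1 v w
  simp only [if_pos h] at h2
  by_contra hc
  rw [if_neg hc] at h2
  exact one_ne_zero h2

/-- FULL: an edge with both ends in `V₀` belongs to `E₀`. -/
theorem FSub.full (h : FSub T b V₀ E₀ N) {e : E} (ho : T.o e ∈ V₀) (ht : T.t e ∈ V₀) :
    e ∈ E₀ := by
  by_contra he
  have key : ∀ v ∈ V₀, hh T e v = hh T e b := by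
    intro v hv
    have h1 := h.sum_sub (hh T e) hv
    rw [Finset.sum_eq_zero] at h1
    · exact sub_eq_zero.1 h1.symm
    · intro e' he'
      have hne : e' ≠ e := by
        rintro rfl
        exact he he'
      rw [hh_cross T hne, sub_self, smul_zero]
  have h1 := key _ ho
  have h2 := key _ ht
  rw [hh_o] at h1
  rw [hh_t, ← h1] at h2
  exact one_ne_zero h2

/-- SEPE: an edge separating two vertices of `V₀` belongs to `E₀`. -/
theorem FSub.sepe (h : FSub T b V₀ E₀ N) {e : E} {v w : V} (hv : v ∈ V₀) (hw : w ∈ V₀)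
    (h1 : v ∈ T.H e) (h2 : w ∉ T.H e) : e ∈ E₀ := by
  by_contra he
  have key : ∀ v ∈ V₀, hh T e v = hh T e b := by
    intro v hv
    have h1 := h.sum_sub (hh T e) hv
    rw [Finset.sum_eq_zero] at h1
    · exact sub_eq_zero.1 h1.symm
    · intro e' he'
      have hne : e' ≠ e := by
        rintro rfl
        exact he he'
      rw [hh_cross T hne, sub_self, smul_zero]
  have h3 := key _ hv
  rw [← key _ hw] at h3
  unfold hh at h3
  rw [if_pos h1, if_neg h2] at h3
  exact one_ne_zero h3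

theorem mem_side {e : E} {v w : V} : w ∈ sd T e v ↔ (w ∈ T.H e ↔ v ∈ T.H e) := Iff.rfl

theorem notMem_side {e : E} {v w : V} : w ∈ (sd T e v)ᶜ ↔ ¬ (w ∈ T.H e ↔ v ∈ T.H e) := Iff.rfl

theorem self_mem_side (T : OTree Γ V E) (e : E) (v : V) : v ∈ sd T e v := Iff.rfl

theorem side_comm {e : E} {v w : V} (h : w ∈ sd T e v) : v ∈ sd T e w := h.symm

theorem side_eq {e : E} {v w : V} (h : w ∈ sd T e v) : sd T e w = sd T e v := by
  ext x
  rw [mem_side, mem_side, mem_side.1 h]

theorem side_of_mem {e : E} {v : V} (h : v ∈ T.H e) : sd T e v = T.H e := by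
  ext x
  rw [mem_side, iff_true_right h]

theorem side_of_notMem {e : E} {v : V} (h : v ∉ T.H e) : sd T e v = (T.H e)ᶜ := by
  ext x
  rw [mem_side, iff_false_right h]
  rfl

theorem side_t (T : OTree Γ V E) (e : E) : sd T e (T.t e) = T.H e := side_of_mem (T.t_mem e)

theorem side_o (T : OTree Γ V E) (e : E) : sd T e (T.o e) = (T.H e)ᶜ :=
  side_of_notMem (T.o_notMem e)

theorem side_cases (T : OTree Γ V E) (e : E) (v : V) :
    sd T e v = T.H e ∨ sd T e v = (T.H e)ᶜ := by
  by_cases h : v ∈ T.H e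
  · exact Or.inl (side_of_mem h)
  · exact Or.inr (side_of_notMem h)

/-- The vertices not on the side of `v` are on one side. -/
theorem side_of_not {e : E} {v w : V} (h : w ∉ sd T e v) : sd T e w = (sd T e v)ᶜ := by
  ext x
  rw [mem_side, Set.mem_compl_iff, mem_side]
  rw [mem_side] at h
  tauto

/-- For another edge the two ends are on the same side. -/
theorem side_ends {e e' : E} (h : e' ≠ e) : sd T e (T.o e') = sd T e (T.t e') := by
  apply side_eq
  rw [mem_side]
  exact T.cross e e' h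

/-- HEQ: the sides are equivariant. -/
theorem smul_mem_H (hT : T.Subtrees b) (g : Γ) (e : E) (v : V) : g • v ∈ T.H (g • e) ↔ v ∈ T.H e := by
  classical
  have h1 : ∀ e', hh T (g • e) (g • T.t e') - hh T e (T.t e') =
      hh T (g • e) (g • T.o e') - hh T e (T.o e') := by
    intro e'
    rw [← T.t_smul, ← T.o_smul]
    by_cases he : e' = e
    · rw [he, hh_t, hh_o, hh_t, hh_o, sub_self, sub_self]
    · rw [hh_cross T he, hh_cross T (fun hc => he (smul_left_cancel g hc))]
  have h2 : hh T (g • e) (g • v) - hh T e v = hh T (g • e) (g • T.t e) - hh T e (T.t e) :=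
    conn hT (f := fun v => hh T (g • e) (g • v) - hh T e v) h1 v (T.t e)
  rw [← T.t_smul, hh_t, hh_t, sub_self] at h2
  unfold hh at h2
  by_cases h3 : g • v ∈ T.H (g • e)
  · by_cases h4 : v ∈ T.H e
    · exact iff_of_true h3 h4
    · rw [if_pos h3, if_neg h4] at h2
      exact absurd h2 one_ne_zero
  · by_cases h4 : v ∈ T.H e
    · rw [if_neg h3, if_pos h4] at h2
      exact absurd h2 (by decide)
    · exact iff_of_false h3 h4

theorem smul_mem_side (hT : T.Subtrees b) (g : Γ) (e : E) (v w : V) :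
    g • w ∈ sd T (g • e) (g • v) ↔ w ∈ sd T e v := by
  rw [mem_side, mem_side, smul_mem_H hT, smul_mem_H hT]

theorem mem_side_smul (hT : T.Subtrees b) (g : Γ) (e : E) (v w : V) :
    w ∈ sd T (g • e) (g • v) ↔ g⁻¹ • w ∈ sd T e v := by
  rw [← smul_mem_side hT g e v (g⁻¹ • w), smul_inv_smul]

/-- NEST. -/
theorem nest (hT : T.Subtrees b) {e e' : E} (h : e' ≠ e) :
    T.H e ⊆ sd T e' (T.t e) ∨ (T.H e)ᶜ ⊆ sd T e' (T.t e) := by
  classical
  have hoe : T.o e ∈ sd T e' (T.t e) := by
    rw [mem_side]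
    exact T.cross e' e (Ne.symm h)
  have hS : ∀ e'', e'' ≠ e' → (T.t e'' ∈ sd T e' (T.t e) ↔ T.o e'' ∈ sd T e' (T.t e)) := by
    intro e'' he''
    rw [mem_side, mem_side, T.cross e' e'' he'']
  by_cases h1 : T.t e' ∈ T.H e
  · right
    have h2 : T.o e' ∈ T.H e := (T.cross e e' h).2 h1
    intro v hv
    by_contra hc
    have h3 : ∀ e'', (T.t e'' ∉ T.H e ∧ T.t e'' ∉ sd T e' (T.t e)) ↔
        (T.o e'' ∉ T.H e ∧ T.o e'' ∉ sd T e' (T.t e)) := by
      intro e''
      by_cases h4 : e'' = e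
      · subst h4
        exact iff_of_false (fun h => h.1 (T.t_mem _)) (fun h => h.2 hoe)
      · by_cases h5 : e'' = e'
        · subst h5
          exact iff_of_false (fun h => h.1 h1) (fun h => h.1 h2)
        · rw [hS e'' h5, T.cross e e'' h4]
    exact (conn_prop hT (p := fun v => v ∉ T.H e ∧ v ∉ sd T e' (T.t e)) h3 v (T.t e)
      ⟨hv, hc⟩).1 (T.t_mem e)
  · left
    have h2 : T.o e' ∉ T.H e := fun h3 => h1 ((T.cross e e' h).1 h3)
    intro v hv
    by_contra hc
    have h3 : ∀ e'', (T.t e'' ∈ T.H e ∧ T.t e'' ∉ sd T e' (T.t e)) ↔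
        (T.o e'' ∈ T.H e ∧ T.o e'' ∉ sd T e' (T.t e)) := by
      intro e''
      by_cases h4 : e'' = e
      · subst h4
        exact iff_of_false (fun h => h.2 (self_mem_side _ _ _)) (fun h => h.2 hoe)
      · by_cases h5 : e'' = e'
        · subst h5
          exact iff_of_false (fun h => h1 h.1) (fun h => h2 h.1)
        · rw [hS e'' h5, T.cross e e'' h4]
    exact T.o_notMem e (conn_prop hT (p := fun v => v ∈ T.H e ∧ v ∉ sd T e' (T.t e)) h3 v (T.o e)
      ⟨hv, hc⟩).1

/-- Differences of a function, as a sum over separating edges. -/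
theorem exists_sep_sum (hT : T.Subtrees b) (u v : V) : ∃ S : Finset E,
    (∀ e, e ∈ S ↔ u ∉ sd T e v) ∧ ∀ {A : Type v} [AddCommGroup A] (f : V → A),
      f u - f v = ∑ e ∈ S, (hh T e u - hh T e v) • (f (T.t e) - f (T.o e)) := by
  classical
  obtain ⟨V₀, E₀, N, hF, h⟩ := exists_fsub hT {u, v}
  have hu : u ∈ V₀ := hF (by simp)
  have hv : v ∈ V₀ := hF (by simp)
  have hN : ∀ e ∈ E₀, N u e - N v e = hh T e u - hh T e v := by
    intro e he
    have h1 : ∀ x ∈ V₀, N x e = hh T e x - hh T e b := by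
      intro x hx
      rw [← h.sum_sub (hh T e) hx, Finset.sum_eq_single e]
      · rw [hh_t, hh_o, sub_zero, smul_eq_mul, mul_one]
      · intro e' _ hne
        rw [hh_cross T hne, sub_self, smul_zero]
      · intro hc
        exact absurd he hc
    rw [h1 u hu, h1 v hv]
    ring
  refine ⟨E₀.filter fun e => u ∉ sd T e v, ?_, ?_⟩
  · intro e
    rw [Finset.mem_filter]
    refine ⟨fun h => h.2, fun h1 => ⟨?_, h1⟩⟩
    rw [mem_side] at h1
    by_cases h2 : u ∈ T.H e
    · exact h.sepe hu hv h2 (fun h3 => h1 (iff_of_true h2 h3))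
    · exact h.sepe hv hu (by tauto) h2
  · intro A _ f
    rw [Finset.sum_filter]
    have h1 : ∀ e ∈ E₀, (if u ∉ sd T e v then (hh T e u - hh T e v) • (f (T.t e) - f (T.o e))
        else 0) = N u e • (f (T.t e) - f (T.o e)) - N v e • (f (T.t e) - f (T.o e)) := by
      intro e he
      rw [← sub_smul, hN e he]
      by_cases h2 : u ∉ sd T e v
      · rw [if_pos h2]
      · rw [if_neg h2]
        rw [not_not, mem_side] at h2
        have : hh T e u = hh T e v := by
          unfold hh
          by_cases h3 : u ∈ T.H e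
          · rw [if_pos h3, if_pos (h2.1 h3)]
          · rw [if_neg h3, if_neg (fun h4 => h3 (h2.2 h4))]
        rw [this, sub_self, zero_smul]
    rw [Finset.sum_congr rfl h1, Finset.sum_sub_distrib, h.sum_sub f hu, h.sum_sub f hv]
    abel

/-- ADJ: the first edge on the way from `v` to `u`. -/
theorem adj (hT : T.Subtrees b) {u v : V} (huv : u ≠ v) :
    ∃ e, Inc T e v ∧ u ∉ sd T e v ∧ ∀ e', Inc T e' v → u ∉ sd T e' v → e' = e := by
  classical
  obtain ⟨S, hS, hf⟩ := exists_sep_sum (T := T) (b := b) hT u v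
  have h1 := hf (fun x => if x = v then (1 : ℤ) else 0)
  simp only [if_neg huv, if_true, smul_eq_mul] at h1
  have h2 : ∀ e ∈ S, (hh T e u - hh T e v) *
      ((if T.t e = v then (1 : ℤ) else 0) - (if T.o e = v then 1 else 0)) =
        if Inc T e v then -1 else 0 := by
    intro e he
    have h3 := (hS e).1 he
    by_cases h4 : T.t e = v
    · have h5 : v ∈ T.H e := h4 ▸ T.t_mem e
      have h6 : u ∉ T.H e := fun h6 => h3 (iff_of_true h6 h5)
      have h7 : T.o e ≠ v := fun h => o_ne_t T e (h.trans h4.symm)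
      have h8 : Inc T e v := Or.inr h4
      rw [if_pos h4, if_neg h7, if_pos h8]
      unfold hh
      rw [if_neg h6, if_pos h5]
      ring
    · by_cases h5 : T.o e = v
      · have h6 : v ∉ T.H e := h5 ▸ T.o_notMem e
        have h7 : u ∈ T.H e := by
          by_contra h7
          exact h3 (iff_of_false h7 h6)
        have h8 : Inc T e v := Or.inl h5
        rw [if_neg h4, if_pos h5, if_pos h8]
        unfold hh
        rw [if_neg h6, if_pos h7]
        ring
      · have h8 : ¬ Inc T e v := fun h => h.elim h5 h4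
        rw [if_neg h4, if_neg h5, if_neg h8, sub_self, mul_zero]
  rw [Finset.sum_congr rfl h2, ← Finset.sum_filter, Finset.sum_const] at h1
  have h3 : (S.filter (fun e => Inc T e v)).card = 1 := by
    rw [nsmul_eq_mul] at h1
    have : ((S.filter (fun e => Inc T e v)).card : ℤ) = 1 := by linarith
    exact_mod_cast this
  obtain ⟨e, he⟩ := Finset.card_eq_one.1 h3
  have h4 : ∀ e', e' ∈ S.filter (fun e => Inc T e v) ↔ e' = e := by
    intro e'
    rw [he, Finset.mem_singleton]
  have h5 := (h4 e).2 rfl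
  rw [Finset.mem_filter, hS] at h5
  refine ⟨e, h5.2, h5.1, fun e' h6 h7 => (h4 e').1 ?_⟩
  rw [Finset.mem_filter, hS]
  exact ⟨h7, h6⟩

/-- The vertices of another edge ending at `v` are on the side of `v`, and what is behind the edge
`e` is on the side of `v` of the edge `e'`. -/
theorem far_subset_side (hT : T.Subtrees b) {v : V} {e e' : E} (he : Inc T e v)
    (he' : Inc T e' v) (h : e' ≠ e) : (sd T e v)ᶜ ⊆ sd T e' v := by
  intro u hu
  by_contra hc
  have huv : u ≠ v := by
    rintro rfl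
    exact hc (self_mem_side _ _ _)
  obtain ⟨e₀, h1, h2, h3⟩ := adj hT huv
  exact h ((h3 e' he' hc).trans (h3 e he hu).symm)

/-- MON: half trees contain half trees at every vertex. -/
theorem mon (hT : T.Subtrees b) (e' : E) (v : V) :
    ∃ e, Inc T e v ∧ sd T e v ⊆ sd T e' v := by
  by_cases hv : Inc T e' v
  · exact ⟨e', hv, fun _ h => h⟩
  · obtain ⟨u, hu, hue⟩ : ∃ u, Inc T e' u ∧ u ∉ sd T e' v := by
      by_cases h1 : v ∈ T.H e'
      · refine ⟨T.o e', Or.inl rfl, fun h2 => ?_⟩
        exact T.o_notMem e' (h2.2 h1)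
      · refine ⟨T.t e', Or.inr rfl, fun h2 => ?_⟩
        exact h1 (h2.1 (T.t_mem e'))
    have huv : u ≠ v := by
      rintro rfl
      exact hv hu
    obtain ⟨e, h1, h2, -⟩ := adj hT huv
    have hne : e' ≠ e := by
      rintro rfl
      exact hv h1
    refine ⟨e, h1, ?_⟩
    have h3 : sd T e' (T.t e) = sd T e' v := by
      rcases h1 with h1 | h1
      · rw [← h1, side_ends (Ne.symm hne)]
      · rw [h1]
    have h4 : sd T e v ⊆ sd T e' v ∨ (sd T e v)ᶜ ⊆ sd T e' v := by
      rw [← h3]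
      rcases side_cases T e v with h5 | h5
      · rw [h5]
        exact nest hT hne
      · rw [h5, compl_compl]
        exact (nest hT hne).symm
    rcases h4 with h4 | h4
    · exact h4
    · exact absurd (h4 h2) hue

/-- SEP: a vertex outside a finite subtree is separated from it by an edge. -/
theorem FSub.sep (h : FSub T b V₀ E₀ N) (hT : T.Subtrees b) {v : V} (hv : v ∉ V₀) :
    ∃ e, ∀ u ∈ V₀, u ∉ sd T e v := by
  classical
  by_contra hc
  push Not at hc
  obtain ⟨S, hS, hf⟩ := exists_sep_sum (T := T) (b := b) hT v b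
  have h1 := hf (fun x => if x ∈ V₀ then (1 : ℤ) else 0)
  simp only [if_neg hv, if_pos h.hb] at h1
  rw [Finset.sum_eq_zero] at h1
  · exact absurd h1 (by decide)
  · intro e he
    have h2 := (hS e).1 he
    obtain ⟨u, hu, hue⟩ := hc e
    have h3 : e ∈ E₀ := by
      rw [mem_side] at h2 hue
      by_cases h4 : u ∈ T.H e
      · exact h.sepe hu h.hb h4 (fun h5 => h2 (iff_of_true (hue.1 h4) h5))
      · refine h.sepe h.hb hu ?_ h4
        by_contra h5
        exact h2 (iff_of_false (fun h6 => h4 (hue.2 h6)) h5)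
    rw [if_pos (h.ends e h3).1, if_pos (h.ends e h3).2, sub_self, smul_zero]

/-- The edges separating two vertices are finite in number. -/
theorem finite_sep (hT : T.Subtrees b) (u v : V) : {e | u ∉ sd T e v}.Finite := by
  obtain ⟨S, hS, -⟩ := exists_sep_sum.{u, 0} (T := T) (b := b) hT u v
  refine S.finite_toSet.subset fun e he => ?_
  exact (hS e).2 he

/-- TC. -/
theorem tc (T : OTree Γ V E) (b : V) (hT : T.Subtrees b) : TFacts T b where
  heq g e v := smul_mem_H hT g e v
  conn F hF v w := ⟨fun h => conn_prop hT (p := F) (fun e => (hF e).symm) v w h,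
    fun h => conn_prop hT (p := F) (fun e => (hF e).symm) w v h⟩
  nest e e' h := by
    rcases nest hT h with h1 | h1
    · exact Or.inl h1
    · exact Or.inr h1
  adj v u h := by
    obtain ⟨e, h1, h2, h3⟩ := adj hT h
    exact ⟨e, ⟨h1, h2⟩, h3⟩
  mon e' v := mon hT e' v
  fin u v := finite_sep hT u v
  sub F := by
    obtain ⟨V₀, E₀, N, hF, h⟩ := exists_fsub hT F
    refine ⟨V₀, E₀, h.hb, hF, fun e => ⟨h.ends e, fun h1 => h.full h1.1 h1.2⟩,
      fun v hv => h.sep hT hv, ?_⟩
    intro e u hu v hv h1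
    rw [mem_side] at h1
    by_cases h2 : u ∈ T.H e
    · exact h.sepe hu hv h2 (fun h3 => h1 (iff_of_true h2 h3))
    · exact h.sepe hv hu (by tauto) h2

end

end Pool.Agent.NegK.TT
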