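import Pool.Agent.Lib.MP_28303a_al.TT.H76.TC

/-! # Section 2: the submodules `W(S)`, `M_v`, `M_e` -/

set_option autoImplicit false
set_option linter.unusedSectionVars false
set_option linter.unusedVariables false

namespace Pool.Agent.NegK.TT

open Pool.Agent.NegK.TW Matrix MonoidAlgebra

universe u

section

variable {k Γ D V E : Type u} [Ring k] [Group Γ] [MulAction Γ D] [MulAction Γ V] [MulAction Γ E]
variable {T : OTree Γ V E} {b : V} {J Λ : Type} [Fintype J] [Fintype Λ]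
variable {z : Matrix Λ J (MonoidAlgebra k Γ)}

/-- Parts with respect to other degrees. -/
theorem spt_res' {D' : Type u} [MulAction Γ D'] {dg : J → D} {dg' : J → D'} {S : Set D}
    {x : J → MonoidAlgebra k Γ} (hx : Spt dg S x) (S' : Set D') : Spt dg S (res dg' S' x) :=
  fun j h hh => hx j h (fil_ne hh).2

/-- The part in a set, as a sum of homogeneous parts. -/
theorem res_eq_sum {dg : J → D} {F : Finset D} {x : J → MonoidAlgebra k Γ}
    (hx : Spt dg (F : Set D) x) (S : Set D) [DecidablePred (· ∈ S)] :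
    res dg S x = ∑ d ∈ F with d ∈ S, res dg {d} x := by
  conv_lhs => rw [← hx.sum_res, map_sum]
  rw [Finset.sum_filter]
  refine Finset.sum_congr rfl fun d _ => ?_
  rw [res_res]
  by_cases hd : d ∈ S
  · rw [if_pos hd]
    congr 1
    congr 1
    ext x
    simp only [Set.mem_inter_iff, Set.mem_singleton_iff]
    exact ⟨fun h => h.2, fun h => ⟨h ▸ hd, h⟩⟩
  · rw [if_neg hd]
    rw [show S ∩ {d} = (∅ : Set D) from by
      ext x
      simp only [Set.mem_inter_iff, Set.mem_singleton_iff, Set.mem_empty_iff_false, iff_false]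
      rintro ⟨h1, rfl⟩
      exact hd h1]
    exact res_empty _ _

theorem mem_WW {S : Set V} {x : J → MonoidAlgebra k Γ} : x ∈ Wr b z S ↔
    ∃ y : Λ → MonoidAlgebra k Γ, Spt (fun _ => b) S y ∧ y ᵥ* z = x := Iff.rfl

theorem WW_mono {S S' : Set V} (h : S ⊆ S') : Wr b z S ≤ Wr b z S' := by
  rintro _ ⟨y, hy, rfl⟩
  exact ⟨y, hy.mono h, rfl⟩

theorem WW_smul {S S' : Set V} {g : Γ} (h : ∀ w ∈ S, g • w ∈ S') (r : k)
    {x : J → MonoidAlgebra k Γ} (hx : x ∈ Wr b z S) :
    (single g r : MonoidAlgebra k Γ) • x ∈ Wr b z S' := by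
  obtain ⟨y, hy, rfl⟩ := hx
  exact ⟨_, hy.single_smul g r h, Matrix.smul_vecMul _ _ _⟩

/-- Rows with locations in `S` belong to `W(S)`. -/
theorem WW_of_spt [DecidableEq J] [DecidableEq Λ] {a : J → Λ} (ha : ∀ j, z (a j) = Pi.single j 1)
    {S : Set V} {x : J → MonoidAlgebra k Γ} (hx : Spt (fun _ => b) S x) : x ∈ Wr b z S := by
  refine ⟨∑ j, Pi.single (a j) (x j), ?_, ?_⟩
  · refine Spt.sum _ fun j _ => ?_
    intro l h hh
    by_cases hl : l = a j
    · subst hl
      rw [Pi.single_eq_same] at hh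
      exact hx j h hh
    · rw [Pi.single_eq_of_ne hl] at hh
      exact absurd rfl hh
  · rw [Matrix.sum_vecMul]
    funext i
    rw [Finset.sum_apply, Finset.sum_eq_single i]
    · rw [Matrix.single_vecMul]
      show x i * z (a i) i = x i
      rw [ha, Pi.single_eq_same, mul_one]
    · intro j _ hj
      rw [Matrix.single_vecMul]
      show x j * z (a j) i = 0
      rw [ha, Pi.single_eq_of_ne (Ne.symm hj), mul_zero]
    · intro hi
      exact absurd (Finset.mem_univ i) hi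

/-- Integral matrices do not change locations. -/
theorem grd_int {Λ' : Type} (N : Matrix Λ Λ' ℤ) : Grd (fun _ => b) (fun _ => b)
    (N.map (Int.castRingHom (MonoidAlgebra k Γ))) := by
  intro i j h hh
  have h1 : h = 1 := by
    have hh' : (single 1 ((N i j : ℤ) : k) : MonoidAlgebra k Γ).coeff h ≠ 0 := hh
    exact coeff_single_ne hh'
  rw [h1, one_smul]

theorem WW_mul {N : Matrix Λ Λ ℤ} {μ : Matrix J J (MonoidAlgebra k Γ)}
    (hN : z * μ = N.map (Int.castRingHom (MonoidAlgebra k Γ)) * z) {S : Set V}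
    {x : J → MonoidAlgebra k Γ} (hx : x ∈ Wr b z S) : x ᵥ* μ ∈ Wr b z S := by
  obtain ⟨y, hy, rfl⟩ := hx
  refine ⟨y ᵥ* N.map (Int.castRingHom (MonoidAlgebra k Γ)), (grd_int N).spt hy, ?_⟩
  rw [Matrix.vecMul_vecMul, Matrix.vecMul_vecMul, hN]

theorem WW_res {dg : J → D} {c : Λ → D} (hz : ∀ l, Spt dg {c l} (z l)) {S : Set V} (P : Set D)
    {x : J → MonoidAlgebra k Γ} (hx : x ∈ Wr b z S) : res dg P x ∈ Wr b z S := by
  obtain ⟨y, hy, rfl⟩ := hx
  have h1 : Grd c dg z := fun l j h hh => (hz l j h hh).symm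
  exact ⟨res c P y, spt_res' hy P, (h1.res_vecMul P y).symm⟩

theorem mem_MV {v : V} {x : J → MonoidAlgebra k Γ} :
    x ∈ Mv T b z v ↔ ∀ e, x ∈ Wr b z (sd T e v) := AddSubgroup.mem_iInf

theorem mem_ME {e : E} {x : J → MonoidAlgebra k Γ} :
    x ∈ Me T b z e ↔ x ∈ Mv T b z (T.o e) ∧ x ∈ Mv T b z (T.t e) := AddSubgroup.mem_inf

theorem MV_smul (hT : T.Subtrees b) {v : V} (g : Γ) (r : k) {x : J → MonoidAlgebra k Γ}
    (hx : x ∈ Mv T b z v) : (single g r : MonoidAlgebra k Γ) • x ∈ Mv T b z (g • v) := by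
  rw [mem_MV] at hx ⊢
  intro e
  refine WW_smul (S := sd T (g⁻¹ • e) v) ?_ r (hx (g⁻¹ • e))
  intro w hw
  rw [← smul_mem_side hT g, smul_inv_smul] at hw
  exact hw

theorem ME_smul (hT : T.Subtrees b) {e : E} (g : Γ) (r : k) {x : J → MonoidAlgebra k Γ}
    (hx : x ∈ Me T b z e) : (single g r : MonoidAlgebra k Γ) • x ∈ Me T b z (g • e) := by
  rw [mem_ME] at hx ⊢
  rw [T.o_smul, T.t_smul]
  exact ⟨MV_smul hT g r hx.1, MV_smul hT g r hx.2⟩

theorem MV_mul {N : Matrix Λ Λ ℤ} {μ : Matrix J J (MonoidAlgebra k Γ)}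
    (hN : z * μ = N.map (Int.castRingHom (MonoidAlgebra k Γ)) * z) {v : V}
    {x : J → MonoidAlgebra k Γ} (hx : x ∈ Mv T b z v) : x ᵥ* μ ∈ Mv T b z v := by
  rw [mem_MV] at hx ⊢
  exact fun e => WW_mul hN (hx e)

theorem ME_mul {N : Matrix Λ Λ ℤ} {μ : Matrix J J (MonoidAlgebra k Γ)}
    (hN : z * μ = N.map (Int.castRingHom (MonoidAlgebra k Γ)) * z) {e : E}
    {x : J → MonoidAlgebra k Γ} (hx : x ∈ Me T b z e) : x ᵥ* μ ∈ Me T b z e := by
  rw [mem_ME] at hx ⊢
  exact ⟨MV_mul hN hx.1, MV_mul hN hx.2⟩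

theorem MV_res {dg : J → D} {c : Λ → D} (hz : ∀ l, Spt dg {c l} (z l)) {v : V} (P : Set D)
    {x : J → MonoidAlgebra k Γ} (hx : x ∈ Mv T b z v) : res dg P x ∈ Mv T b z v := by
  rw [mem_MV] at hx ⊢
  exact fun e => WW_res hz P (hx e)

theorem ME_res {dg : J → D} {c : Λ → D} (hz : ∀ l, Spt dg {c l} (z l)) {e : E} (P : Set D)
    {x : J → MonoidAlgebra k Γ} (hx : x ∈ Me T b z e) : res dg P x ∈ Me T b z e := by
  rw [mem_ME] at hx ⊢
  exact ⟨MV_res hz P hx.1, MV_res hz P hx.2⟩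

theorem MV_of_spt [DecidableEq J] [DecidableEq Λ] {a : J → Λ} (ha : ∀ j, z (a j) = Pi.single j 1)
    {v : V} {x : J → MonoidAlgebra k Γ} (hx : Spt (fun _ => b) {v} x) : x ∈ Mv T b z v := by
  rw [mem_MV]
  intro e
  refine WW_of_spt ha (hx.mono ?_)
  rintro _ rfl
  exact self_mem_side _ _ _

open Classical in
/-- 2.2, EXACT. -/
theorem sum_mem_ME (hT : T.Subtrees b) (F : Finset V) (x : V → J → MonoidAlgebra k Γ)
    (hx : ∀ v ∈ F, x v ∈ Mv T b z v) (h0 : ∑ v ∈ F, x v = 0) (e : E) :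
    ∑ v ∈ F with v ∈ T.H e, x v ∈ Me T b z e := by
  have hneg : ∑ v ∈ F with v ∈ T.H e, x v = -∑ v ∈ F with v ∉ T.H e, x v := by
    rw [eq_neg_iff_add_eq_zero, Finset.sum_filter_add_sum_filter_not, h0]
  have hH : ∀ (S : Set V) (e' : E), (∀ v ∈ T.H e, sd T e' v ⊆ S) →
      ∑ v ∈ F with v ∈ T.H e, x v ∈ Wr b z S := by
    intro S e' h
    refine AddSubgroup.sum_mem _ fun v hv => ?_
    rw [Finset.mem_filter] at hv
    exact WW_mono (h v hv.2) (mem_MV.1 (hx v hv.1) e')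
  have hHc : ∀ (S : Set V) (e' : E), (∀ v ∉ T.H e, sd T e' v ⊆ S) →
      ∑ v ∈ F with v ∈ T.H e, x v ∈ Wr b z S := by
    intro S e' h
    rw [hneg]
    refine AddSubgroup.neg_mem _ (AddSubgroup.sum_mem _ fun v hv => ?_)
    rw [Finset.mem_filter] at hv
    exact WW_mono (h v hv.2) (mem_MV.1 (hx v hv.1) e')
  have h1 : ∀ e', e' ≠ e → ∑ v ∈ F with v ∈ T.H e, x v ∈ Wr b z (sd T e' (T.t e)) := by
    intro e' he'
    rcases nest hT he' with h | h
    · exact hH _ e' fun v hv => (side_eq (h hv)).subset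
    · exact hHc _ e' fun v hv => (side_eq (h hv)).subset
  rw [mem_ME, mem_MV, mem_MV]
  constructor
  · intro e'
    by_cases he : e' = e
    · subst he
      rw [side_o]
      exact hHc _ e' fun v hv => (side_of_notMem hv).subset
    · rw [side_ends (Ne.symm he)]
      exact h1 e' he
  · intro e'
    by_cases he : e' = e
    · subst he
      rw [side_t]
      exact hH _ e' fun v hv => (side_of_mem hv).subset
    · exact h1 e' he

/-- 2.3: supports of the elements of `W(S)`. -/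
theorem exists_Y (b : V) (z : Matrix Λ J (MonoidAlgebra k Γ)) : ∃ Y : Finset V,
    ∀ (S : Set V) (x : J → MonoidAlgebra k Γ), x ∈ Wr b z S → ∀ j γ, (x j).coeff γ ≠ 0 →
      ∃ u ∈ Y, γ • u ∈ S := by
  classical
  refine ⟨Finset.univ.biUnion fun l => Finset.univ.biUnion fun j =>
    (z l j).coeff.support.image fun g => g⁻¹ • b, ?_⟩
  rintro S _ ⟨y, hy, rfl⟩ j γ hγ
  have h1 : (∑ l, y l * z l j).coeff γ ≠ 0 := hγ
  obtain ⟨l, -, h2⟩ := coeff_sum_ne h1
  obtain ⟨h, g, h3, h4, h5⟩ := coeff_mul_ne_zero h2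
  refine ⟨g⁻¹ • b, ?_, ?_⟩
  · rw [Finset.mem_biUnion]
    refine ⟨l, Finset.mem_univ l, ?_⟩
    rw [Finset.mem_biUnion]
    exact ⟨j, Finset.mem_univ j, Finset.mem_image_of_mem _ (Finsupp.mem_support_iff.2 h4)⟩
  · rw [← h5, mul_smul, smul_inv_smul]
    exact hy l h h3

theorem supp_MV (hT : T.Subtrees b) {Y : Finset V} (hY : ∀ (S : Set V) (x : J → MonoidAlgebra k Γ),
    x ∈ Wr b z S → ∀ j γ, (x j).coeff γ ≠ 0 → ∃ u ∈ Y, γ • u ∈ S) {V₀ : Finset V} {E₀ : Finset E}
    {N : V → E → ℤ} (h : FSub T b V₀ E₀ N) (hYV : Y ⊆ V₀) {v : V} {x : J → MonoidAlgebra k Γ}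
    (hx : x ∈ Mv T b z v) {j : J} {γ : Γ} (hγ : (x j).coeff γ ≠ 0) : γ⁻¹ • v ∈ V₀ := by
  by_contra hc
  obtain ⟨e, he⟩ := h.sep hT hc
  obtain ⟨u, hu, hus⟩ := hY _ x (mem_MV.1 hx (γ • e)) j γ hγ
  apply he u (hYV hu)
  rw [← smul_mem_side hT γ, smul_inv_smul]
  exact hus

theorem supp_ME (hT : T.Subtrees b) {Y : Finset V} (hY : ∀ (S : Set V) (x : J → MonoidAlgebra k Γ),
    x ∈ Wr b z S → ∀ j γ, (x j).coeff γ ≠ 0 → ∃ u ∈ Y, γ • u ∈ S) {V₀ : Finset V} {E₀ : Finset E}
    {N : V → E → ℤ} (h : FSub T b V₀ E₀ N) (hYV : Y ⊆ V₀) {e : E} {x : J → MonoidAlgebra k Γ}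
    (hx : x ∈ Me T b z e) {j : J} {γ : Γ} (hγ : (x j).coeff γ ≠ 0) : γ⁻¹ • e ∈ E₀ := by
  rw [mem_ME] at hx
  refine h.full ?_ ?_
  · rw [T.o_smul]
    exact supp_MV hT hY h hYV hx.1 hγ
  · rw [T.t_smul]
    exact supp_MV hT hY h hYV hx.2 hγ

/-- 2.4 (i), (iv): the far parts. -/
theorem far_mem_ME [DecidableEq J] [DecidableEq Λ] {a : J → Λ} (ha : ∀ j, z (a j) = Pi.single j 1)
    (hT : T.Subtrees b) {v : V} {e : E} (he : Inc T e v) {w : J → MonoidAlgebra k Γ}
    (hw : w ∈ Wr b z (sd T e v)) : res (fun _ => b) (sd T e v)ᶜ w ∈ Me T b z e := by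
  have hS : res (fun _ => b) (sd T e v)ᶜ w ∈ Wr b z (sd T e v) := by
    have h1 := res_compl (fun _ => b) (sd T e v) w
    have h2 : res (fun _ => b) (sd T e v)ᶜ w = w - res (fun _ => b) (sd T e v) w := by
      rw [eq_sub_iff_add_eq, add_comm]
      exact h1
    rw [h2]
    exact AddSubgroup.sub_mem _ hw (WW_of_spt ha (spt_res _ _ _))
  have hSc : res (fun _ => b) (sd T e v)ᶜ w ∈ Wr b z (sd T e v)ᶜ :=
    WW_of_spt ha (spt_res _ _ _)
  have h1 : ∀ e', e' ≠ e → res (fun _ => b) (sd T e v)ᶜ w ∈ Wr b z (sd T e' v) := by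
    intro e' _
    obtain ⟨e'', h1, h2⟩ := mon hT e' v
    refine WW_mono h2 ?_
    by_cases h3 : e'' = e
    · rw [h3]
      exact hS
    · exact WW_mono (far_subset_side hT he h1 h3) hSc
  have h2 : ∀ e' v', Inc T e v' → res (fun _ => b) (sd T e v)ᶜ w ∈ Wr b z (sd T e' v') := by
    intro e' v' hv'
    by_cases h3 : e' = e
    · subst h3
      rcases he with rfl | rfl
      · rcases hv' with rfl | rfl
        · exact hS
        · rw [side_t]
          rw [side_o, compl_compl] at hSc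
          rwa [side_o, compl_compl]
      · rcases hv' with rfl | rfl
        · rw [side_o]
          rw [side_t] at hSc
          rwa [side_t]
        · exact hS
    · have h4 : sd T e' v' = sd T e' v := by
        rcases he with rfl | rfl
        · rcases hv' with rfl | rfl
          · rfl
          · exact (side_ends (Ne.symm h3)).symm
        · rcases hv' with rfl | rfl
          · exact side_ends (Ne.symm h3)
          · rfl
      rw [h4]
      exact h1 e' h3
  rw [mem_ME, mem_MV, mem_MV]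
  exact ⟨fun e' => h2 e' _ (Or.inl rfl), fun e' => h2 e' _ (Or.inr rfl)⟩

/-- 2.4 (ii): decomposition of the elements of `M_v`. -/
theorem MV_dec (hT : T.Subtrees b) (v : V) (x : J → MonoidAlgebra k Γ) :
    ∃ S : Finset E, (∀ e ∈ S, Inc T e v) ∧
      x = res (fun _ => b) {v} x + ∑ e ∈ S, res (fun _ => b) (sd T e v)ᶜ x := by
  classical
  obtain ⟨F, hF⟩ := exists_degrees (fun _ : J => b) x
  have hfin : (⋃ u ∈ F, {e | u ∉ sd T e v}).Finite :=
    Set.Finite.biUnion F.finite_toSet fun u _ => finite_sep hT u v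
  let S : Finset E := hfin.toFinset.filter fun e => Inc T e v
  have hS : ∀ e, e ∈ S ↔ Inc T e v ∧ ∃ u ∈ F, u ∉ sd T e v := by
    intro e
    rw [Finset.mem_filter, Set.Finite.mem_toFinset, Set.mem_iUnion₂]
    constructor
    · rintro ⟨⟨u, hu, h1⟩, h2⟩
      exact ⟨h2, u, hu, h1⟩
    · rintro ⟨h2, u, hu, h1⟩
      exact ⟨⟨u, hu, h1⟩, h2⟩
  refine ⟨S, fun e he => ((hS e).1 he).1, ?_⟩
  have h1 : ∀ e ∈ S, res (fun _ => b) (sd T e v)ᶜ x =
      ∑ u ∈ F, if u ∉ sd T e v then res (fun _ : J => b) {u} x else 0 := by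
    intro e _
    rw [res_eq_sum hF, Finset.sum_filter]
    rfl
  have h2 : ∀ u ∈ F, ∑ e ∈ S, (if u ∉ sd T e v then res (fun _ : J => b) {u} x else 0) =
      if u = v then 0 else res (fun _ : J => b) {u} x := by
    intro u hu
    by_cases huv : u = v
    · rw [if_pos huv]
      refine Finset.sum_eq_zero fun e _ => if_neg ?_
      rw [huv, not_not]
      exact self_mem_side _ _ _
    · rw [if_neg huv]
      obtain ⟨e, h3, h4, h5⟩ := adj hT huv
      rw [Finset.sum_eq_single e, if_pos h4]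
      · intro e' he' hne
        refine if_neg fun h6 => hne (h5 e' ((hS e').1 he').1 h6)
      · intro hc
        exact absurd ((hS e).2 ⟨h3, u, hu, h4⟩) hc
  rw [Finset.sum_congr rfl h1, Finset.sum_comm, Finset.sum_congr rfl h2]
  conv_lhs => rw [← hF.sum_res]
  by_cases hv : v ∈ F
  · rw [← Finset.add_sum_erase F _ hv, ← Finset.add_sum_erase F
      (fun u => if u = v then 0 else res (fun _ : J => b) {u} x) hv, if_pos rfl, zero_add]
    congr 1
    refine Finset.sum_congr rfl fun u hu => ?_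
    rw [if_neg (Finset.ne_of_mem_erase hu)]
  · have h3 : res (fun _ : J => b) {v} x = 0 := by
      refine hF.res_eq_zero fun d hd hc => hv ?_
      rw [Set.mem_singleton_iff] at hc
      rw [← hc]
      exact hd
    rw [h3, zero_add]
    refine Finset.sum_congr rfl fun u hu => ?_
    rw [if_neg]
    rintro rfl
    exact hv hu

/-- The generators `u_(l,ε)`: the part of `z_l` behind the edge `ε`, seen from `b`. -/
noncomputable def uu (T : OTree Γ V E) (b : V) (z : Matrix Λ J (MonoidAlgebra k Γ)) (l : Λ)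
    (e : E) : J → MonoidAlgebra k Γ := res (fun _ => b) (sd T e b)ᶜ (z l)

/-- Only finitely many edges matter. -/
theorem exists_E1 (hT : T.Subtrees b) (z : Matrix Λ J (MonoidAlgebra k Γ)) :
    ∃ E₁ : Finset E, ∀ l e, uu T b z l e ≠ 0 → e ∈ E₁ := by
  classical
  have h1 : ∀ l, ∃ F : Finset V, Spt (fun _ => b) (F : Set V) (z l) := fun l =>
    exists_degrees _ _
  choose F hF using h1
  have hfin : (⋃ l, ⋃ u ∈ F l, {e | u ∉ sd T e b}).Finite :=
    Set.finite_iUnion fun l => Set.Finite.biUnion (F l).finite_toSet fun u _ => finite_sep hT u b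
  refine ⟨hfin.toFinset, fun l e he => ?_⟩
  rw [Set.Finite.mem_toFinset, Set.mem_iUnion]
  refine ⟨l, ?_⟩
  by_contra hc
  apply he
  refine (hF l).res_eq_zero fun u hu hus => hc ?_
  rw [Set.mem_iUnion₂]
  exact ⟨u, hu, hus⟩

/-- The end of the edge `e` on the side of `b`. -/
theorem exists_end (T : OTree Γ V E) (b : V) (e : E) : ∃ v, Inc T e v ∧ v ∈ sd T e b := by
  by_cases h : b ∈ T.H e
  · exact ⟨T.t e, Or.inr rfl, iff_of_true (T.t_mem e) h⟩
  · exact ⟨T.o e, Or.inl rfl, iff_of_false (T.o_notMem e) h⟩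

theorem end_unique {e : E} {v v' : V} (hv : Inc T e v) (hv' : Inc T e v')
    (h : v ∈ sd T e v') : v = v' := by
  rcases hv with rfl | rfl
  · rcases hv' with rfl | rfl
    · rfl
    · exact absurd (h.2 (T.t_mem e)) (T.o_notMem e)
  · rcases hv' with rfl | rfl
    · exact absurd (h.1 (T.t_mem e)) (T.o_notMem e)
    · rfl

/-- `uu` belongs to `M_ε`. -/
theorem uu_mem_ME [DecidableEq J] [DecidableEq Λ] {a : J → Λ} (ha : ∀ j, z (a j) = Pi.single j 1)
    (hT : T.Subtrees b) (l : Λ) (e : E) : uu T b z l e ∈ Me T b z e := by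
  obtain ⟨v, hv, hvb⟩ := exists_end T b e
  have h1 : sd T e v = sd T e b := side_eq hvb
  unfold uu
  rw [← h1]
  refine far_mem_ME ha hT hv ?_
  refine ⟨Pi.single l 1, ?_, ?_⟩
  · refine (spt_single (fun _ => b) l).mono ?_
    rintro _ rfl
    exact side_comm hvb
  · rw [Matrix.single_one_vecMul]
    rfl

/-- 2.4 (iii): the far part of an element of `W(side e v)`. -/
theorem far_eq_sum (hT : T.Subtrees b) {v : V} {e : E} (he : Inc T e v)
    {y : Λ → MonoidAlgebra k Γ} (hy : Spt (fun _ => b) (sd T e v) y) :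
    res (fun _ => b) (sd T e v)ᶜ (y ᵥ* z) = ∑ l, ∑ h ∈ (y l).coeff.support,
      (single h ((y l).coeff h) : MonoidAlgebra k Γ) • uu T b z l (h⁻¹ • e) := by
  have h1 : y ᵥ* z = ∑ l, ∑ h ∈ (y l).coeff.support,
      (single h ((y l).coeff h) : MonoidAlgebra k Γ) • z l := by
    funext j
    rw [Finset.sum_apply]
    show ∑ l, y l * z l j = _
    refine Finset.sum_congr rfl fun l _ => ?_
    rw [Finset.sum_apply]
    conv_lhs => rw [← sum_single_coeff (y l), Finset.sum_mul]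
    rfl
  rw [h1, map_sum]
  refine Finset.sum_congr rfl fun l _ => ?_
  rw [map_sum]
  refine Finset.sum_congr rfl fun h hh => ?_
  rw [res_single_smul]
  congr 1
  unfold uu
  congr 1
  congr 1
  have h2 : h • b ∈ sd T e v := hy l h (Finsupp.mem_support_iff.1 hh)
  ext w
  show ¬ (h • w ∈ sd T e v) ↔ ¬ (w ∈ sd T (h⁻¹ • e) b)
  rw [not_iff_not, ← smul_mem_side hT h (h⁻¹ • e) b w, smul_inv_smul, side_eq h2]

/-- In the sum `far_eq_sum` the element `h⁻¹ v` is the end of `h⁻¹ e` on the side of `b`. -/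
theorem far_end (hT : T.Subtrees b) {v : V} {e : E} (he : Inc T e v) {h : Γ}
    (hh : h • b ∈ sd T e v) : Inc T (h⁻¹ • e) (h⁻¹ • v) ∧ h⁻¹ • v ∈ sd T (h⁻¹ • e) b := by
  constructor
  · rcases he with rfl | rfl
    · exact Or.inl (T.o_smul _ _)
    · exact Or.inr (T.t_smul _ _)
  · rw [← smul_mem_side hT h, smul_inv_smul, smul_inv_smul]
    exact side_comm hh

end

end Pool.Agent.NegK.TT
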