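import Pool.Agent.Lib.MP_28303a_al.TT.Defs

/-! # Section 3: the module of an equivariant family -/

set_option autoImplicit false
set_option linter.unusedSectionVars false
set_option linter.unusedVariables false

namespace Pool.Agent.NegK.TT

open Pool.Agent.NegK.TW Matrix MonoidAlgebra

universe u

section

variable {k Γ X D : Type u} [Ring k] [Group Γ] [MulAction Γ X] [MulAction Γ D] {J I : Type}
  [Fintype J] [DecidableEq J] [Fintype I] {vt : I → X}

theorem lf_add (v : X) (m m' : J → MonoidAlgebra k Γ) :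
    lf vt v (m + m') = lf vt v m + lf vt v m' := funext fun p => map_add _ _ _

theorem lf_zero (v : X) : lf vt v (0 : J → MonoidAlgebra k Γ) = 0 := funext fun p => map_zero _

theorem lf_neg (v : X) (m : J → MonoidAlgebra k Γ) : lf vt v (-m) = -lf vt v m :=
  funext fun p => map_neg _ _

theorem lf_sum {α : Type*} (s : Finset α) (v : X) (m : α → J → MonoidAlgebra k Γ) :
    lf vt v (∑ a ∈ s, m a) = ∑ a ∈ s, lf vt v (m a) := by
  funext p
  rw [Finset.sum_apply]
  show fil _ ((∑ a ∈ s, m a) p.1) = _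
  rw [Finset.sum_apply, map_sum]
  rfl

theorem spt_lf (v : X) (m : J → MonoidAlgebra k Γ) :
    Spt (fun p : J × I => vt p.2) {v} (lf vt v m) := fun _ _ hh => (fil_ne hh).1

theorem vecMul_sm (x : J × I → MonoidAlgebra k Γ) (j : J) :
    (x ᵥ* sm k Γ J I) j = ∑ i, x (j, i) := by
  show ∑ p : J × I, x p * (if p.1 = j then 1 else 0) = _
  rw [Fintype.sum_prod_type, Finset.sum_eq_single j]
  · refine Finset.sum_congr rfl fun i _ => ?_
    rw [if_pos rfl, mul_one]
  · intro j' _ hj
    refine Finset.sum_eq_zero fun i _ => ?_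
    rw [if_neg hj, mul_zero]
  · intro h
    exact absurd (Finset.mem_univ j) h

theorem lf_smul (g : Γ) (r : k) (v : X) (m : J → MonoidAlgebra k Γ) :
    lf vt (g • v) ((single g r : MonoidAlgebra k Γ) • m) =
      (single g r : MonoidAlgebra k Γ) • lf vt v m := by
  funext p
  show fil {γ | γ • vt p.2 = g • v} (single g r * m p.1) =
    single g r * fil {γ | γ • vt p.2 = v} (m p.1)
  rw [fil_single_mul]
  congr 1
  refine fil_congr fun h _ => ?_
  show (g * h) • vt p.2 = g • v ↔ h • vt p.2 = v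
  rw [mul_smul]
  exact ⟨fun h => smul_left_cancel g h, fun h => congrArg (g • ·) h⟩

theorem res_lf_self (v : X) (m : J → MonoidAlgebra k Γ) :
    res (fun p : J × I => vt p.2) {v} (lf vt v m) = lf vt v m := (spt_lf v m).res_eq

theorem res_lf_ne {v v' : X} (h : v' ≠ v) (m : J → MonoidAlgebra k Γ) :
    res (fun p : J × I => vt p.2) {v'} (lf vt v m) = 0 :=
  (spt_lf v m).res_eq_zero fun d hd hc => h (by
    rw [Set.mem_singleton_iff] at hd hc
    rw [← hc, hd])

/-- Components of `lf`. -/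
theorem res_pair_lf (dg : J → D) (v : X) (m : J → MonoidAlgebra k Γ) (d : D) :
    res (fun p : J × I => (dg p.1, vt p.2)) {(d, v)} (lf vt v m) = lf vt v (res dg {d} m) := by
  funext p
  show fil {γ | γ • (dg p.1, vt p.2) ∈ ({(d, v)} : Set (D × X))} (fil {γ | γ • vt p.2 = v} (m p.1)) =
    fil {γ | γ • vt p.2 = v} (fil {γ | γ • dg p.1 ∈ ({d} : Set D)} (m p.1))
  rw [fil_fil, fil_fil]
  refine fil_congr fun h _ => ?_
  rw [Set.mem_inter_iff, Set.mem_inter_iff]
  show (h • (dg p.1, vt p.2) = (d, v) ∧ h • vt p.2 = v) ↔ (h • vt p.2 = v ∧ h • dg p.1 = d)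
  rw [Prod.smul_mk, Prod.mk.injEq]
  tauto

theorem res_pair_lf_ne (dg : J → D) {v v' : X} (h : v' ≠ v) (m : J → MonoidAlgebra k Γ) (d : D) :
    res (fun p : J × I => (dg p.1, vt p.2)) {(d, v')} (lf vt v m) = 0 := by
  funext p
  show fil {γ | γ • (dg p.1, vt p.2) ∈ ({(d, v')} : Set (D × X))}
    (fil {γ | γ • vt p.2 = v} (m p.1)) = 0
  rw [fil_fil]
  refine fil_eq_zero fun γ _ hγ => ?_
  obtain ⟨h1, h2⟩ := hγ
  have h3 : (γ • dg p.1, γ • vt p.2) = (d, v') := h1
  rw [Prod.mk.injEq] at h3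
  exact h (h3.2.symm.trans h2)

theorem th_eq_part (μ : Matrix J J (MonoidAlgebra k Γ)) :
    th vt μ = part (fun p : J × I => vt p.2) (fun p : J × I => vt p.2) (fun a b => a = b)
      (fun p q => μ p.1 q.1) := by
  funext p q
  refine fil_congr fun h _ => ?_
  exact ⟨fun h => Eq.symm h, fun h => Eq.symm h⟩

theorem vecMul_big (μ : Matrix J J (MonoidAlgebra k Γ)) (x : J × I → MonoidAlgebra k Γ)
    (q : J × I) : (x ᵥ* (fun p q => μ p.1 q.1 : Matrix (J × I) (J × I) (MonoidAlgebra k Γ))) q =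
      ((x ᵥ* sm k Γ J I) ᵥ* μ) q.1 := by
  show ∑ p : J × I, x p * μ p.1 q.1 = ∑ j, (x ᵥ* sm k Γ J I) j * μ j q.1
  rw [Fintype.sum_prod_type]
  refine Finset.sum_congr rfl fun j _ => ?_
  rw [vecMul_sm, Finset.sum_mul]

/-- `th` on homogeneous rows. -/
theorem vecMul_th (μ : Matrix J J (MonoidAlgebra k Γ)) {v : X} {x : J × I → MonoidAlgebra k Γ}
    (hx : Spt (fun p : J × I => vt p.2) {v} x) :
    x ᵥ* th vt μ = lf vt v ((x ᵥ* sm k Γ J I) ᵥ* μ) := by
  rw [th_eq_part, vecMul_part invar_eq _ hx]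
  funext q
  rw [res_apply, vecMul_big]
  refine fil_congr fun h _ => ?_
  exact ⟨fun h => Eq.symm h, fun h => Eq.symm h⟩

section inj

variable (hvt : Function.Injective vt)
include hvt

/-- `lf` and the sum. -/
theorem lf_sm {v : X} {m : J → MonoidAlgebra k Γ}
    (hm : ∀ j γ, (m j).coeff γ ≠ 0 → ∃ i, γ • vt i = v) : lf vt v m ᵥ* sm k Γ J I = m := by
  funext j
  rw [vecMul_sm]
  ext γ
  rw [MonoidAlgebra.coeff_sum, Finsupp.finsetSum_apply]
  by_cases h : (m j).coeff γ = 0
  · rw [h]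
    refine Finset.sum_eq_zero fun i _ => ?_
    by_contra hc
    exact (fil_ne hc).2 h
  · obtain ⟨i, hi⟩ := hm j γ h
    rw [Finset.sum_eq_single i]
    · exact fil_pos (S := {γ | γ • vt i = v}) hi _
    · intro i' _ hne
      refine fil_neg (S := {γ | γ • vt i' = v}) (fun hc => hne (hvt ?_)) _
      have h1 : γ • vt i' = γ • vt i := (show γ • vt i' = v from hc).trans hi.symm
      exact smul_left_cancel γ h1
    · intro hc
      exact absurd (Finset.mem_univ i) hc

/-- Homogeneous rows are of the form `lf`. -/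
theorem eq_lf {v : X} {x : J × I → MonoidAlgebra k Γ}
    (hx : Spt (fun p : J × I => vt p.2) {v} x) : lf vt v (x ᵥ* sm k Γ J I) = x := by
  funext p
  obtain ⟨j, i⟩ := p
  show fil {γ | γ • vt i = v} ((x ᵥ* sm k Γ J I) j) = x (j, i)
  rw [vecMul_sm, map_sum, Finset.sum_eq_single i]
  · exact fil_eq_self fun g hg => hx (j, i) g hg
  · intro i' _ hne
    refine fil_eq_zero fun g hg hc => hne (hvt ?_)
    have h1 : g • vt i' = v := hx (j, i') g hg
    exact smul_left_cancel g (h1.trans (Eq.symm hc))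
  · intro hc
    exact absurd (Finset.mem_univ i) hc

end inj

/-! ### The module of the family -/

theorem memG_smul (vt : I → X) (A : EqFam k Γ X J) (r : MonoidAlgebra k Γ)
    (x : J × I → MonoidAlgebra k Γ) (hx : MemG vt A.A x) : MemG vt A.A (r • x) := by
  intro v
  induction r using MonoidAlgebra.induction_linear with
  | zero =>
    rw [zero_smul, map_zero, Matrix.zero_vecMul]
    exact (A.A v).zero_mem
  | add r r' h h' =>
    rw [add_smul, map_add, Matrix.add_vecMul]
    exact (A.A v).add_mem h h'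
  | single g c =>
    rw [res_single_smul, Matrix.smul_vecMul]
    have h1 : {d : X | g • d ∈ ({v} : Set X)} = {g⁻¹ • v} := by
      ext d
      show g • d = v ↔ d = g⁻¹ • v
      exact ⟨fun h => by rw [← h, inv_smul_smul], fun h => by rw [h, smul_inv_smul]⟩
    rw [h1]
    have h2 := A.smul g c _ _ (hx (g⁻¹ • v))
    rwa [smul_inv_smul] at h2

/-- The module `𝕄` of the family `A`. -/
noncomputable def GM (vt : I → X) (A : EqFam k Γ X J) :
    Submodule (MonoidAlgebra k Γ) (J × I → MonoidAlgebra k Γ) where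
  carrier := {x | MemG vt A.A x}
  zero_mem' := by
    intro v
    rw [map_zero, Matrix.zero_vecMul]
    exact (A.A v).zero_mem
  add_mem' := by
    intro x y hx hy v
    rw [map_add, Matrix.add_vecMul]
    exact (A.A v).add_mem (hx v) (hy v)
  smul_mem' := fun r x hx => memG_smul vt A r x hx

variable (A : EqFam k Γ X J)

theorem mem_GM {x : J × I → MonoidAlgebra k Γ} : x ∈ GM vt A ↔
    ∀ v : X, (res (fun p : J × I => vt p.2) {v} x) ᵥ* sm k Γ J I ∈ A.A v := Iff.rfl

variable {A} (hvt : Function.Injective vt) (hc : CovG vt A.A)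
include hvt hc

theorem lf_sm' {v : X} {m : J → MonoidAlgebra k Γ} (hm : m ∈ A.A v) :
    lf vt v m ᵥ* sm k Γ J I = m := lf_sm hvt (hc v m hm)

theorem lf_mem_GM {v : X} {m : J → MonoidAlgebra k Γ} (hm : m ∈ A.A v) : lf vt v m ∈ GM vt A := by
  intro v'
  by_cases h : v' = v
  · rw [h, res_lf_self, lf_sm' hvt hc hm]
    exact hm
  · rw [res_lf_ne h, Matrix.zero_vecMul]
    exact (A.A v').zero_mem

/-- Decomposition. -/
theorem GM_dec {x : J × I → MonoidAlgebra k Γ} (hx : x ∈ GM vt A) :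
    ∃ (F : Finset X) (m : X → J → MonoidAlgebra k Γ), (∀ v, m v ∈ A.A v) ∧
      x = ∑ v ∈ F, lf vt v (m v) := by
  obtain ⟨F, hF⟩ := exists_degrees (fun p : J × I => vt p.2) x
  refine ⟨F, fun v => (res (fun p : J × I => vt p.2) {v} x) ᵥ* sm k Γ J I, hx, ?_⟩
  conv_lhs => rw [← hF.sum_res]
  exact Finset.sum_congr rfl fun v _ => (eq_lf hvt (spt_res _ _ _)).symm

theorem GM_induction {P : (J × I → MonoidAlgebra k Γ) → Prop} (h0 : P 0)
    (hadd : ∀ x y, P x → P y → P (x + y)) (hlf : ∀ v, ∀ m ∈ A.A v, P (lf vt v m))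
    {x : J × I → MonoidAlgebra k Γ} (hx : x ∈ GM vt A) : P x := by
  classical
  obtain ⟨F, m, hm, rfl⟩ := GM_dec hvt hc hx
  induction F using Finset.induction_on with
  | empty => rw [Finset.sum_empty]; exact h0
  | insert a s ha ih =>
    rw [Finset.sum_insert ha]
    refine hadd _ _ (hlf a _ (hm a)) (ih ?_)
    exact Submodule.sum_mem _ fun v _ => lf_mem_GM hvt hc (hm v)

theorem lf_th {μ : Matrix J J (MonoidAlgebra k Γ)} {v : X} {m : J → MonoidAlgebra k Γ}
    (hm : m ∈ A.A v) : lf vt v m ᵥ* th vt μ = lf vt v (m ᵥ* μ) := by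
  rw [vecMul_th μ (spt_lf v m), lf_sm' hvt hc hm]

theorem GM_th {μ : Matrix J J (MonoidAlgebra k Γ)} (hμ : StaG A.A μ)
    {x : J × I → MonoidAlgebra k Γ} (hx : x ∈ GM vt A) : x ᵥ* th vt μ ∈ GM vt A := by
  refine GM_induction hvt hc (P := fun x => x ᵥ* th vt μ ∈ GM vt A) ?_ ?_ ?_ hx
  · rw [Matrix.zero_vecMul]
    exact Submodule.zero_mem _
  · intro x y h1 h2
    rw [Matrix.add_vecMul]
    exact Submodule.add_mem _ h1 h2
  · intro v m hm
    rw [lf_th hvt hc hm]
    exact lf_mem_GM hvt hc (hμ v m hm)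

theorem GM_th_sm {μ : Matrix J J (MonoidAlgebra k Γ)} (hμ : StaG A.A μ)
    {x : J × I → MonoidAlgebra k Γ} (hx : x ∈ GM vt A) :
    x ᵥ* th vt μ ᵥ* sm k Γ J I = x ᵥ* sm k Γ J I ᵥ* μ := by
  refine GM_induction hvt hc
    (P := fun x => x ᵥ* th vt μ ᵥ* sm k Γ J I = x ᵥ* sm k Γ J I ᵥ* μ) ?_ ?_ ?_ hx
  · simp only [Matrix.zero_vecMul]
  · intro x y h1 h2
    simp only [Matrix.add_vecMul, h1, h2]
  · intro v m hm
    rw [lf_th hvt hc hm, lf_sm' hvt hc hm, lf_sm' hvt hc (hμ v m hm)]

theorem GM_res {dg : J → D} (hg : GraG dg A.A) {x : J × I → MonoidAlgebra k Γ}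
    (hx : x ∈ GM vt A) (p : D × X) : res (fun p : J × I => (dg p.1, vt p.2)) {p} x ∈ GM vt A := by
  refine GM_induction hvt hc
    (P := fun x => res (fun p : J × I => (dg p.1, vt p.2)) {p} x ∈ GM vt A) ?_ ?_ ?_ hx
  · rw [map_zero]
    exact Submodule.zero_mem _
  · intro x y h1 h2
    rw [map_add]
    exact Submodule.add_mem _ h1 h2
  · intro v m hm
    obtain ⟨d, v'⟩ := p
    by_cases h : v' = v
    · rw [h, res_pair_lf]
      exact lf_mem_GM hvt hc (hg v m hm d)
    · rw [res_pair_lf_ne dg h]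
      exact Submodule.zero_mem _

/-- Chains. -/
theorem itc_lf {dg : J → D} {μ : Matrix J J (MonoidAlgebra k Γ)} (hμ : StaG A.A μ)
    (hg : GraG dg A.A) (l : List (D × X)) : ∀ (v : X) (m : J → MonoidAlgebra k Γ), m ∈ A.A v →
    itc (fun p : J × I => (dg p.1, vt p.2)) (th vt μ) l (lf vt v m) =
        lf vt v (itc dg μ (l.map Prod.fst) m) ∨
      itc (fun p : J × I => (dg p.1, vt p.2)) (th vt μ) l (lf vt v m) = 0 := by
  induction l with
  | nil => exact fun v m _ => Or.inl rfl
  | cons c l ih =>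
    intro v m hm
    obtain ⟨d, v'⟩ := c
    show itc (fun p : J × I => (dg p.1, vt p.2)) (th vt μ) l
        (res (fun p : J × I => (dg p.1, vt p.2)) {(d, v')} (lf vt v m ᵥ* th vt μ)) =
          lf vt v (itc dg μ (l.map Prod.fst) (res dg {d} (m ᵥ* μ))) ∨
      itc (fun p : J × I => (dg p.1, vt p.2)) (th vt μ) l
        (res (fun p : J × I => (dg p.1, vt p.2)) {(d, v')} (lf vt v m ᵥ* th vt μ)) = 0
    rw [lf_th hvt hc hm]
    by_cases h : v' = v
    · rw [h, res_pair_lf]
      exact ih v _ (hg v _ (hμ v m hm) d)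
    · rw [res_pair_lf_ne dg h]
      right
      have h1 : ∀ l : List (D × X), itc (fun p : J × I => (dg p.1, vt p.2)) (th vt μ) l
          (0 : J × I → MonoidAlgebra k Γ) = 0 := by
        intro l
        induction l with
        | nil => rfl
        | cons c l ih =>
          show itc (fun p : J × I => (dg p.1, vt p.2)) (th vt μ) l
            (res (fun p : J × I => (dg p.1, vt p.2)) {c} (0 ᵥ* th vt μ)) = 0
          rw [Matrix.zero_vecMul, map_zero, ih]
      exact h1 l

theorem GM_chain {dg : J → D} {μ : Matrix J J (MonoidAlgebra k Γ)} (hμ : StaG A.A μ)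
    (hg : GraG dg A.A) {d : ℕ} (hd : ChainNil dg μ d) (l : List (D × X)) (hl : l.length = d)
    {x : J × I → MonoidAlgebra k Γ} (hx : x ∈ GM vt A) :
    itc (fun p : J × I => (dg p.1, vt p.2)) (th vt μ) l x = 0 := by
  have h1 : ∀ (l : List (D × X)) (x y : J × I → MonoidAlgebra k Γ),
      itc (fun p : J × I => (dg p.1, vt p.2)) (th vt μ) l (x + y) =
      itc (fun p : J × I => (dg p.1, vt p.2)) (th vt μ) l x +
      itc (fun p : J × I => (dg p.1, vt p.2)) (th vt μ) l y := by
    intro l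
    induction l with
    | nil => intro x y; rfl
    | cons c l ih =>
      intro x y
      show itc (fun p : J × I => (dg p.1, vt p.2)) (th vt μ) l
        (res (fun p : J × I => (dg p.1, vt p.2)) {c} ((x + y) ᵥ* th vt μ)) = _
      rw [Matrix.add_vecMul, map_add, ih]
      rfl
  refine GM_induction hvt hc
    (P := fun x => itc (fun p : J × I => (dg p.1, vt p.2)) (th vt μ) l x = 0) ?_ ?_ ?_ hx
  · have h2 := h1 l 0 0
    rw [add_zero] at h2
    exact left_eq_add.1 h2
  · intro x y h2 h3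
    rw [h1, h2, h3, add_zero]
  · intro v m hm
    rcases itc_lf hvt hc hμ hg l v m hm with h | h
    · rw [h, hd (l.map Prod.fst) (by rw [List.length_map, hl]), lf_zero]
    · exact h

/-- Surjectivity. -/
theorem GM_surj (F : Finset X) (m : X → J → MonoidAlgebra k Γ) (hm : ∀ v ∈ F, m v ∈ A.A v) :
    ∃ y ∈ GM vt A, y ᵥ* sm k Γ J I = ∑ v ∈ F, m v := by
  refine ⟨∑ v ∈ F, lf vt v (m v), Submodule.sum_mem _ fun v hv => lf_mem_GM hvt hc (hm v hv), ?_⟩
  rw [Matrix.sum_vecMul]
  exact Finset.sum_congr rfl fun v hv => lf_sm' hvt hc (hm v hv)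

/-- Generators. -/
theorem GM_range {Θ : Type} [Fintype Θ] [DecidableEq Θ] {w : Θ → J → MonoidAlgebra k Γ}
    {p : Θ → X} (hG : GenG A.A w p) :
    LinearMap.range (Matrix.vecMulLinear (fun a => lf vt (p a) (w a) :
      Matrix Θ (J × I) (MonoidAlgebra k Γ))) = GM vt A := by
  apply le_antisymm
  · rintro _ ⟨y, rfl⟩
    have h1 : Matrix.vecMulLinear (fun a => lf vt (p a) (w a) :
        Matrix Θ (J × I) (MonoidAlgebra k Γ)) y = ∑ a, y a • lf vt (p a) (w a) := by
      funext q
      rw [Finset.sum_apply]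
      rfl
    rw [h1]
    exact Submodule.sum_mem _ fun a _ => Submodule.smul_mem _ _ (lf_mem_GM hvt hc (hG.1 a))
  · intro x hx
    refine GM_induction hvt hc (P := fun x => x ∈ LinearMap.range (Matrix.vecMulLinear
      (fun a => lf vt (p a) (w a) : Matrix Θ (J × I) (MonoidAlgebra k Γ)))) ?_ ?_ ?_ hx
    · exact Submodule.zero_mem _
    · intro x y h1 h2
      exact Submodule.add_mem _ h1 h2
    · intro v m hm
      have h1 := hG.2 v m hm
      clear hm
      induction h1 using AddSubgroup.closure_induction with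
      | mem x h =>
        obtain ⟨a, h, c, rfl, rfl⟩ := h
        rw [lf_smul]
        refine Submodule.smul_mem _ _ ⟨Pi.single a 1, ?_⟩
        rw [Matrix.vecMulLinear_apply, Matrix.single_one_vecMul]
        rfl
      | zero => rw [lf_zero]; exact Submodule.zero_mem _
      | add x y _ _ h1 h2 => rw [lf_add]; exact Submodule.add_mem _ h1 h2
      | neg x _ h1 => rw [lf_neg]; exact Submodule.neg_mem _ h1

end

end Pool.Agent.NegK.TT
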