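import Pool.Agent.Lib.MP_28303a_al.TT.H76.S2
import Pool.Agent.Lib.MP_28303a_al.TT.H76.S3
import Pool.Agent.Lib.MP_28303a_al.TT.Iface

/-! # SPLIT: the exact sequence -/

set_option autoImplicit false
set_option linter.unusedSectionVars false
set_option linter.unusedVariables false

namespace Pool.Agent.NegK.TT

open Pool.Agent.NegK.TW Matrix MonoidAlgebra

universe u

section

variable {k Γ D V E : Type u} [Ring k] [Group Γ] [MulAction Γ D] [MulAction Γ V] [MulAction Γ E]
variable {T : OTree Γ V E} {b : V} {J Λ : Type} [Fintype J] [Fintype Λ] [DecidableEq J]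
  [DecidableEq Λ]

/-- The family of the `M_v`. -/
noncomputable def famV (hT : T.Subtrees b) (z : Matrix Λ J (MonoidAlgebra k Γ)) :
    EqFam k Γ V J where
  A := Mv T b z
  smul g c v x hx := MV_smul hT g c hx

/-- The family of the `M_e`. -/
noncomputable def famE (hT : T.Subtrees b) (z : Matrix Λ J (MonoidAlgebra k Γ)) :
    EqFam k Γ E J where
  A := Me T b z
  smul g c v x hx := ME_smul hT g c hx

variable {z : Matrix Λ J (MonoidAlgebra k Γ)} {a : J → Λ}

/-- The far parts are generated by the `uu`. -/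
theorem far_closure (ha : ∀ j, z (a j) = Pi.single j 1) (hT : T.Subtrees b) {v : V} {e : E}
    (he : Inc T e v) {w : J → MonoidAlgebra k Γ} (hw : w ∈ Wr b z (sd T e v))
    (K : AddSubgroup (J → MonoidAlgebra k Γ))
    (hK : ∀ (l : Λ) (h : Γ) (c : k), h • b ∈ sd T e v →
      (single h c : MonoidAlgebra k Γ) • uu T b z l (h⁻¹ • e) ∈ K) :
    res (fun _ => b) (sd T e v)ᶜ w ∈ K := by
  obtain ⟨y, hy, rfl⟩ := hw
  rw [far_eq_sum hT he hy]
  refine AddSubgroup.sum_mem _ fun l _ => AddSubgroup.sum_mem _ fun h hh => ?_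
  exact hK l h _ (hy l h (Finsupp.mem_support_iff.1 hh))

/-- Generators of the family `M_e`. -/
theorem genE (ha : ∀ j, z (a j) = Pi.single j 1) (hT : T.Subtrees b) {m : ℕ} {ep : Fin m → E}
    (hep : ∀ l e, uu T b z l e ≠ 0 → ∃ q, ep q = e) :
    GenG (famE hT z).A (fun p : Λ × Fin m => uu T b z p.1 (ep p.2)) (fun p => ep p.2) := by
  refine ⟨fun p => uu_mem_ME ha hT _ _, fun e x hx => ?_⟩
  have key : ∀ v, Inc T e v → res (fun _ => b) (sd T e v)ᶜ x ∈ AddSubgroup.closure
      {y : J → MonoidAlgebra k Γ | ∃ (p : Λ × Fin m) (h : Γ) (c : k), h • ep p.2 = e ∧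
        y = (single h c : MonoidAlgebra k Γ) • uu T b z p.1 (ep p.2)} := by
    intro v hv
    have hx' : x ∈ Mv T b z v := by
      rcases hv with rfl | rfl
      · exact (mem_ME.1 hx).1
      · exact (mem_ME.1 hx).2
    refine far_closure ha hT hv (mem_MV.1 hx' e) _ fun l h c hh => ?_
    by_cases h0 : uu T b z l (h⁻¹ • e) = 0
    · rw [h0, smul_zero]
      exact AddSubgroup.zero_mem _
    · obtain ⟨q, hq⟩ := hep _ _ h0
      refine AddSubgroup.subset_closure ⟨(l, q), h, c, ?_, ?_⟩
      · rw [hq, smul_inv_smul]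
      · rw [hq]
  have h1 := AddSubgroup.add_mem _ (key _ (Or.inl rfl)) (key _ (Or.inr rfl))
  rw [side_o, side_t, compl_compl, res_compl] at h1
  exact h1

/-- Generators of the family `M_v`. -/
theorem genV (ha : ∀ j, z (a j) = Pi.single j 1) (hT : T.Subtrees b) {m : ℕ} {ep : Fin m → E}
    (hep : ∀ l e, uu T b z l e ≠ 0 → ∃ q, ep q = e) {ve : E → V}
    (hve : ∀ e, Inc T e (ve e) ∧ ve e ∈ sd T e b) :
    GenG (famV hT z).A (Sum.elim (fun j : J => Pi.single j (1 : MonoidAlgebra k Γ))
      (fun p : Λ × Fin m => uu T b z p.1 (ep p.2)))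
      (Sum.elim (fun _ => b) (fun p => ve (ep p.2))) := by
  refine ⟨?_, fun v x hx => ?_⟩
  · rintro (j | p)
    · exact MV_of_spt ha (spt_single _ j)
    · have h1 := mem_ME.1 (uu_mem_ME ha hT p.1 (ep p.2))
      show uu T b z p.1 (ep p.2) ∈ Mv T b z (ve (ep p.2))
      rcases (hve (ep p.2)).1 with h | h
      · rw [← h]; exact h1.1
      · rw [← h]; exact h1.2
  · obtain ⟨S, hS, hdec⟩ := MV_dec (b := b) hT v x
    rw [hdec]
    refine AddSubgroup.add_mem _ ?_ (AddSubgroup.sum_mem _ fun e he => ?_)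
    · rw [row_eq_sum (res (fun _ => b) {v} x)]
      refine AddSubgroup.sum_mem _ fun j _ => AddSubgroup.sum_mem _ fun h hh => ?_
      have h1 : h • b = v := spt_res (fun _ => b) {v} x j h (Finsupp.mem_support_iff.1 hh)
      exact AddSubgroup.subset_closure ⟨Sum.inl j, h, _, h1, rfl⟩
    · refine far_closure ha hT (hS e he) (mem_MV.1 hx e) _ fun l h c hh => ?_
      by_cases h0 : uu T b z l (h⁻¹ • e) = 0
      · rw [h0, smul_zero]
        exact AddSubgroup.zero_mem _
      · obtain ⟨q, hq⟩ := hep _ _ h0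
        have h1 := far_end hT (hS e he) hh
        have h2 : h⁻¹ • v = ve (h⁻¹ • e) :=
          end_unique h1.1 (hve _).1 (by rw [side_eq (hve (h⁻¹ • e)).2]; exact h1.2)
        refine AddSubgroup.subset_closure ⟨Sum.inr (l, q), h, c, ?_, ?_⟩
        · show h • ve (ep q) = v
          rw [hq, ← h2, smul_inv_smul]
        · show _ = (single h c : MonoidAlgebra k Γ) • uu T b z l (ep q)
          rw [hq]

end

end Pool.Agent.NegK.TT
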