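import Pool.Agent.Lib.MP_28303a_al.TT.H76.S4

/-! # SPLIT: the exact sequence -/

set_option autoImplicit false
set_option linter.unusedSectionVars false
set_option linter.unusedVariables false

namespace Pool.Agent.NegK.TT

open Pool.Agent.NegK.TW Matrix MonoidAlgebra

universe u v

/-- Enumeration of a finite set. -/
theorem exists_enum {X : Type u} (F : Finset X) : ∃ (n : ℕ) (f : Fin n → X) (hf : Function.Injective f),
    F = Finset.univ.map ⟨f, hf⟩ := by
  classical
  refine ⟨F.card, fun i => (F.equivFin.symm i : X), ?_, ?_⟩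
  · intro i j h
    exact F.equivFin.symm.injective (Subtype.ext h)
  · ext x
    rw [Finset.mem_map]
    constructor
    · intro hx
      exact ⟨F.equivFin ⟨x, hx⟩, Finset.mem_univ _, by simp⟩
    · rintro ⟨i, -, rfl⟩
      exact (F.equivFin.symm i).2

section

variable {k Γ D V E : Type u} [Ring k] [Group Γ] [MulAction Γ D] [MulAction Γ V] [MulAction Γ E]
variable {T : OTree Γ V E} {b : V} {J Λ : Type} [Fintype J] [Fintype Λ] [DecidableEq J]
  [DecidableEq Λ]
variable {V₀ : Finset V} {E₀ : Finset E} {N : V → E → ℤ}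

/-- The contraction. -/
theorem FSub.N_eq (h : FSub T b V₀ E₀ N) {v : V} {e : E} (hv : v ∈ V₀) (he : e ∈ E₀) :
    N v e = hh T e v - hh T e b := by
  rw [← h.sum_sub (hh T e) hv, Finset.sum_eq_single e]
  · rw [hh_t, hh_o, sub_zero, smul_eq_mul, mul_one]
  · intro e' _ hne
    rw [hh_cross T hne, sub_self, smul_zero]
  · intro hc
    exact absurd he hc

/-- A `0`-chain of degree zero is a boundary. -/
theorem FSub.exact' (h : FSub T b V₀ E₀ N) {A : Type v} [AddCommGroup A] (x : V → A)
    (hx : ∑ v ∈ V₀, x v = 0) {w : V} (hw : w ∈ V₀) :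
    ∑ e ∈ E₀, bd T e w • ∑ v ∈ V₀, hh T e v • x v = x w := by
  rw [← h.exact x hx hw]
  refine Finset.sum_congr rfl fun e he => ?_
  congr 1
  have h1 : ∑ v ∈ V₀, N v e • x v = ∑ v ∈ V₀, hh T e v • x v - hh T e b • ∑ v ∈ V₀, x v := by
    rw [Finset.smul_sum, ← Finset.sum_sub_distrib]
    refine Finset.sum_congr rfl fun v hv => ?_
    rw [h.N_eq hv he, sub_smul]
  rw [h1, hx, smul_zero, sub_zero]

variable {I K : Type} [Fintype I] [Fintype K] {vt : I → V} {et : K → E}

/-- The matrix of the boundary map. -/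
noncomputable def dl (T : OTree Γ V E) (k : Type u) [Ring k] (J : Type) [DecidableEq J]
    (vt : I → V) (et : K → E) : Matrix (J × K) (J × I) (MonoidAlgebra k Γ) :=
  fun p q => if p.1 = q.1 then ((bd T (et p.2) (vt q.2) : ℤ) : MonoidAlgebra k Γ) else 0

theorem vecMul_dl (y : J × K → MonoidAlgebra k Γ) (j : J) (i : I) :
    (y ᵥ* dl T k J vt et) (j, i) = ∑ q, bd T (et q) (vt i) • y (j, q) := by
  show ∑ p : J × K, y p * (if p.1 = j then ((bd T (et p.2) (vt i) : ℤ) : MonoidAlgebra k Γ)
    else 0) = _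
  rw [Fintype.sum_prod_type, Finset.sum_eq_single j]
  · refine Finset.sum_congr rfl fun q _ => ?_
    rw [if_pos rfl, zsmul_eq_mul']
  · intro j' _ hj
    refine Finset.sum_eq_zero fun q _ => ?_
    rw [if_neg hj, mul_zero]
  · intro h
    exact absurd (Finset.mem_univ j) h

/-- The boundary of `lf`. -/
theorem lf_dl (het : Function.Injective et) {e : E} {m : J → MonoidAlgebra k Γ}
    (hm : ∀ j γ, (m j).coeff γ ≠ 0 → ∃ q, γ • et q = e) :
    lf et e m ᵥ* dl T k J vt et = lf vt (T.t e) m - lf vt (T.o e) m := by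
  classical
  funext p
  obtain ⟨j, i⟩ := p
  rw [vecMul_dl]
  have h0 : m j = ∑ q, fil {γ | γ • et q = e} (m j) := by
    have h1 := congrFun (lf_sm het hm) j
    rw [vecMul_sm] at h1
    exact h1.symm
  have ht : fil {γ | γ • vt i = T.t e} (m j) =
      ∑ q, if vt i = T.t (et q) then fil {γ | γ • et q = e} (m j) else 0 := by
    conv_lhs => rw [h0, map_sum]
    refine Finset.sum_congr rfl fun q _ => ?_
    rw [fil_fil]
    by_cases h : vt i = T.t (et q)
    · rw [if_pos h]
      refine fil_congr fun γ _ => ?_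
      show (γ • vt i = T.t e ∧ γ • et q = e) ↔ γ • et q = e
      refine ⟨fun h => h.2, fun h1 => ⟨?_, h1⟩⟩
      rw [h, ← T.t_smul, h1]
    · rw [if_neg h]
      refine fil_eq_zero fun γ _ hγ => h ?_
      obtain ⟨h1, h2⟩ := hγ
      have h1' : γ • vt i = T.t e := h1
      have h2' : γ • et q = e := h2
      rw [← h2', T.t_smul] at h1'
      exact smul_left_cancel γ h1'
  have ho : fil {γ | γ • vt i = T.o e} (m j) =
      ∑ q, if vt i = T.o (et q) then fil {γ | γ • et q = e} (m j) else 0 := by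
    conv_lhs => rw [h0, map_sum]
    refine Finset.sum_congr rfl fun q _ => ?_
    rw [fil_fil]
    by_cases h : vt i = T.o (et q)
    · rw [if_pos h]
      refine fil_congr fun γ _ => ?_
      show (γ • vt i = T.o e ∧ γ • et q = e) ↔ γ • et q = e
      refine ⟨fun h => h.2, fun h1 => ⟨?_, h1⟩⟩
      rw [h, ← T.o_smul, h1]
    · rw [if_neg h]
      refine fil_eq_zero fun γ _ hγ => h ?_
      obtain ⟨h1, h2⟩ := hγ
      have h1' : γ • vt i = T.o e := h1
      have h2' : γ • et q = e := h2
      rw [← h2', T.o_smul] at h1'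
      exact smul_left_cancel γ h1'
  show _ = fil {γ | γ • vt i = T.t e} (m j) - fil {γ | γ • vt i = T.o e} (m j)
  rw [ht, ho, ← Finset.sum_sub_distrib]
  refine Finset.sum_congr rfl fun q _ => ?_
  show bd T (et q) (vt i) • fil {γ | γ • et q = e} (m j) = _
  unfold bd
  rw [sub_smul]
  congr 1
  · by_cases h : vt i = T.t (et q)
    · rw [if_pos h, if_pos h, one_smul]
    · rw [if_neg h, if_neg h, zero_smul]
  · by_cases h : vt i = T.o (et q)
    · rw [if_pos h, if_pos h, one_smul]
    · rw [if_neg h, if_neg h, zero_smul]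

variable (hvt : Function.Injective vt) (het : Function.Injective et)
  (h : FSub T b V₀ E₀ N) (hV₀ : V₀ = Finset.univ.map ⟨vt, hvt⟩)
  (hE₀ : E₀ = Finset.univ.map ⟨et, het⟩)
include h hV₀ hE₀

/-- The boundary map followed by the augmentation is zero. -/
theorem dl_sm (y : J × K → MonoidAlgebra k Γ) :
    y ᵥ* dl T k J vt et ᵥ* sm k Γ J I = 0 := by
  funext j
  rw [vecMul_sm]
  show ∑ i, (y ᵥ* dl T k J vt et) (j, i) = 0
  have h1 : ∀ i, (y ᵥ* dl T k J vt et) (j, i) = ∑ q, bd T (et q) (vt i) • y (j, q) :=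
    fun i => vecMul_dl y j i
  rw [Finset.sum_congr rfl (fun i _ => h1 i), Finset.sum_comm]
  refine Finset.sum_eq_zero fun q _ => ?_
  have h2 : et q ∈ E₀ := by
    rw [hE₀, Finset.mem_map]
    exact ⟨q, Finset.mem_univ q, rfl⟩
  have h3 := sum_bd T (h.ends _ h2).1 (h.ends _ h2).2 (fun _ => y (j, q))
  rw [sub_self, hV₀, Finset.sum_map] at h3
  exact h3

/-- The boundary map is injective. -/
theorem dl_inj (y : J × K → MonoidAlgebra k Γ) (hy : y ᵥ* dl T k J vt et = 0) : y = 0 := by
  classical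
  funext p
  obtain ⟨j, q⟩ := p
  let y' : E → MonoidAlgebra k Γ := fun e => ∑ q, if et q = e then y (j, q) else 0
  have hy' : ∀ q, y' (et q) = y (j, q) := by
    intro q
    show ∑ q', (if et q' = et q then y (j, q') else 0) = _
    rw [Finset.sum_eq_single q, if_pos rfl]
    · intro q' _ hne
      rw [if_neg (fun hc => hne (het hc))]
    · intro hc
      exact absurd (Finset.mem_univ q) hc
  have h1 := h.inj y' (fun w hw => by
    rw [hE₀, Finset.sum_map]
    show ∑ q, bd T (et q) w • y' (et q) = 0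
    rw [hV₀, Finset.mem_map] at hw
    obtain ⟨i, -, rfl⟩ := hw
    have h2 := congrFun hy (j, i)
    rw [vecMul_dl] at h2
    refine Eq.trans (Finset.sum_congr rfl fun q _ => ?_) h2
    rw [hy']
    rfl) (et q) (by
      rw [hE₀, Finset.mem_map]
      exact ⟨q, Finset.mem_univ q, rfl⟩)
  rw [hy'] at h1
  exact h1

/-- A row with augmentation zero is a boundary. -/
theorem dl_exact (x : J × I → MonoidAlgebra k Γ) (hx : x ᵥ* sm k Γ J I = 0) :
    (fun p : J × K => ∑ i, hh T (et p.2) (vt i) • x (p.1, i)) ᵥ* dl T k J vt et = x := by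
  classical
  funext p
  obtain ⟨j, i⟩ := p
  rw [vecMul_dl]
  let x' : V → MonoidAlgebra k Γ := fun v => ∑ i, if vt i = v then x (j, i) else 0
  have hx' : ∀ i, x' (vt i) = x (j, i) := by
    intro i
    show ∑ i', (if vt i' = vt i then x (j, i') else 0) = _
    rw [Finset.sum_eq_single i, if_pos rfl]
    · intro i' _ hne
      rw [if_neg (fun hc => hne (hvt hc))]
    · intro hc
      exact absurd (Finset.mem_univ i) hc
  have h0 : ∑ v ∈ V₀, x' v = 0 := by
    rw [hV₀, Finset.sum_map]
    have h1 := congrFun hx j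
    rw [vecMul_sm] at h1
    exact Eq.trans (Finset.sum_congr rfl fun i _ => hx' i) h1
  have h1 := h.exact' x' h0 (w := vt i) (by
    rw [hV₀, Finset.mem_map]
    exact ⟨i, Finset.mem_univ i, rfl⟩)
  rw [hx', hE₀, Finset.sum_map] at h1
  rw [← h1]
  refine Finset.sum_congr rfl fun q _ => ?_
  show bd T (et q) (vt i) • _ = bd T (et q) (vt i) • _
  congr 1
  rw [hV₀, Finset.sum_map]
  refine Finset.sum_congr rfl fun i' _ => ?_
  show _ = hh T (et q) (vt i') • x' (vt i')
  rw [hx']

end

end Pool.Agent.NegK.TT
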