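import Pool.Agent.Lib.MP_28303a_al.TT.H76.S5

/-! # SPLIT -/

set_option autoImplicit false
set_option linter.unusedSectionVars false
set_option linter.unusedVariables false

namespace Pool.Agent.NegK.TT

open Pool.Agent.NegK.TW Matrix MonoidAlgebra

universe u v

section

variable {k Γ D V E : Type u} [Ring k] [Group Γ] [MulAction Γ D] [MulAction Γ V] [MulAction Γ E]
variable {T : OTree Γ V E} {b : V} {J Λ : Type} [Fintype J] [Fintype Λ] [DecidableEq J]
  [DecidableEq Λ]
variable {V₀ : Finset V} {E₀ : Finset E} {N : V → E → ℤ}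
variable {I K : Type} [Fintype I] [Fintype K] {vt : I → V} {et : K → E}
variable {z : Matrix Λ J (MonoidAlgebra k Γ)}

theorem spt_pair_lf {X : Type u} [MulAction Γ X] {st : I → X} {dg : J → D} {d : D}
    {m : J → MonoidAlgebra k Γ} (hm : Spt dg {d} m) (v : X) :
    Spt (fun p : J × I => (dg p.1, st p.2)) {(d, v)} (lf st v m) := by
  rw [spt_iff, res_pair_lf, hm.res_eq]

/-- The boundary of the module of the family `M_e`. -/
theorem dl_mem (hT : T.Subtrees b) (hvt : Function.Injective vt) (het : Function.Injective et)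
    (hcV : CovG vt (famV hT z).A) (hcE : CovG et (famE hT z).A) {x : J × K → MonoidAlgebra k Γ}
    (hx : x ∈ GM et (famE hT z)) : x ᵥ* dl T k J vt et ∈ GM vt (famV hT z) := by
  refine GM_induction het hcE (P := fun x => x ᵥ* dl T k J vt et ∈ GM vt (famV hT z)) ?_ ?_ ?_ hx
  · rw [Matrix.zero_vecMul]
    exact Submodule.zero_mem _
  · intro x y h1 h2
    rw [Matrix.add_vecMul]
    exact Submodule.add_mem _ h1 h2
  · intro e m hm
    have hm' := mem_ME.1 (show m ∈ Me T b z e from hm)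
    rw [lf_dl het (hcE e m hm)]
    exact Submodule.sub_mem _ (lf_mem_GM hvt hcV (A := famV hT z) hm'.2)
      (lf_mem_GM hvt hcV (A := famV hT z) hm'.1)

/-- The boundary map commutes with the endomorphisms. -/
theorem dl_th (hT : T.Subtrees b) (hvt : Function.Injective vt) (het : Function.Injective et)
    (hcV : CovG vt (famV hT z).A) (hcE : CovG et (famE hT z).A)
    {μ : Matrix J J (MonoidAlgebra k Γ)} (hμE : StaG (famE hT z).A μ)
    {x : J × K → MonoidAlgebra k Γ} (hx : x ∈ GM et (famE hT z)) :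
    x ᵥ* th et μ ᵥ* dl T k J vt et = x ᵥ* dl T k J vt et ᵥ* th vt μ := by
  refine GM_induction het hcE (P := fun x =>
    x ᵥ* th et μ ᵥ* dl T k J vt et = x ᵥ* dl T k J vt et ᵥ* th vt μ) ?_ ?_ ?_ hx
  · simp only [Matrix.zero_vecMul]
  · intro x y h1 h2
    simp only [Matrix.add_vecMul, h1, h2]
  · intro e m hm
    have hm' := mem_ME.1 (show m ∈ Me T b z e from hm)
    rw [lf_th het hcE hm, lf_dl het (hcE e _ (hμE e m hm)), lf_dl het (hcE e m hm),
      Matrix.sub_vecMul, lf_th hvt hcV (A := famV hT z) hm'.2,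
      lf_th hvt hcV (A := famV hT z) hm'.1]

/-- The chain obtained from a row with augmentation zero. -/
theorem chain_mem (hT : T.Subtrees b) (hvt : Function.Injective vt) (het : Function.Injective et)
    (hcE : CovG et (famE hT z).A) {x : J × I → MonoidAlgebra k Γ} (hx : x ∈ GM vt (famV hT z))
    (h0 : x ᵥ* sm k Γ J I = 0) :
    (fun p : J × K => ∑ i, hh T (et p.2) (vt i) • x (p.1, i)) ∈ GM et (famE hT z) := by
  classical
  obtain ⟨F, hF⟩ := exists_degrees (fun p : J × I => vt p.2) x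
  let m : V → J → MonoidAlgebra k Γ := fun v =>
    (res (fun p : J × I => vt p.2) {v} x) ᵥ* sm k Γ J I
  have hm : ∀ v ∈ F, m v ∈ Mv T b z v := fun v _ => hx v
  have hm0 : ∑ v ∈ F, m v = 0 := by
    show ∑ v ∈ F, (res (fun p : J × I => vt p.2) {v} x) ᵥ* sm k Γ J I = 0
    rw [← Matrix.sum_vecMul, hF.sum_res, h0]
  intro e
  have hn : ∑ v ∈ F with v ∈ T.H e, m v ∈ Me T b z e := sum_mem_ME hT F m hm hm0 e
  have key : res (fun p : J × K => et p.2) {e}
      (fun p : J × K => ∑ i, hh T (et p.2) (vt i) • x (p.1, i)) =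
        lf et e (∑ v ∈ F with v ∈ T.H e, m v) := by
    funext p
    obtain ⟨j, q⟩ := p
    have h1 : (∑ v ∈ F with v ∈ T.H e, m v) j =
        ∑ i, fil {γ | γ • vt i ∈ T.H e} (x (j, i)) := by
      show (∑ v ∈ F with v ∈ T.H e, (res (fun p : J × I => vt p.2) {v} x) ᵥ* sm k Γ J I) j = _
      rw [← Matrix.sum_vecMul, ← res_eq_sum hF (T.H e), vecMul_sm]
      rfl
    show fil {γ | γ • et q ∈ ({e} : Set E)} (∑ i, hh T (et q) (vt i) • x (j, i)) =
      fil {γ | γ • et q = e} ((∑ v ∈ F with v ∈ T.H e, m v) j)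
    rw [h1, map_sum, map_sum]
    refine Finset.sum_congr rfl fun i _ => ?_
    rw [fil_fil, map_zsmul]
    unfold hh
    by_cases h2 : vt i ∈ T.H (et q)
    · rw [if_pos h2, one_smul]
      refine fil_congr fun γ _ => ?_
      show γ • et q = e ↔ (γ • et q = e ∧ γ • vt i ∈ T.H e)
      refine ⟨fun h => ⟨h, ?_⟩, fun h => h.1⟩
      rw [← h, smul_mem_H hT]
      exact h2
    · rw [if_neg h2, zero_smul]
      symm
      refine fil_eq_zero fun γ _ hγ => h2 ?_
      have h3 : γ • et q = e := hγ.1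
      have h4 : γ • vt i ∈ T.H e := hγ.2
      rw [← h3, smul_mem_H hT] at h4
      exact h4
  rw [key, lf_sm het (hcE e _ hn)]
  exact hn

end

/-- SPLIT. -/
theorem split : SplitStatement.{u} := by
  classical
  intro k Γ D V E _ _ _ _ _ T b hT J Λ _ _ _ _ dg μ d hd z Nz c a hz hc hN ha
  obtain ⟨Y, hY⟩ := exists_Y b z
  obtain ⟨V₀, E₀, N, hYV, h⟩ := exists_fsub hT Y
  obtain ⟨n0, vt, hvt, hV₀⟩ := exists_enum V₀
  obtain ⟨n1, et, het, hE₀⟩ := exists_enum E₀
  obtain ⟨E₁, hE₁⟩ := exists_E1 hT z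
  obtain ⟨m, ep, hep', hE₁'⟩ := exists_enum E₁
  have hep : ∀ l e, uu T b z l e ≠ 0 → ∃ q, ep q = e := by
    intro l e he
    have h1 := hE₁ l e he
    rw [hE₁', Finset.mem_map] at h1
    obtain ⟨q, -, hq⟩ := h1
    exact ⟨q, hq⟩
  choose ve hve using fun e => exists_end T b e
  have hcV : CovG vt (famV hT z).A := by
    intro v x hx j γ hγ
    have h1 : γ⁻¹ • v ∈ V₀ := supp_MV hT hY h hYV (show x ∈ Mv T b z v from hx) hγ
    rw [hV₀, Finset.mem_map] at h1
    obtain ⟨i, -, hi⟩ := h1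
    refine ⟨i, ?_⟩
    have hi' : vt i = γ⁻¹ • v := hi
    rw [hi', smul_inv_smul]
  have hcE : CovG et (famE hT z).A := by
    intro e x hx j γ hγ
    have h1 : γ⁻¹ • e ∈ E₀ := supp_ME hT hY h hYV (show x ∈ Me T b z e from hx) hγ
    rw [hE₀, Finset.mem_map] at h1
    obtain ⟨i, -, hi⟩ := h1
    refine ⟨i, ?_⟩
    have hi' : et i = γ⁻¹ • e := hi
    rw [hi', smul_inv_smul]
  have hsV : StaG (famV hT z).A μ := fun v x hx => MV_mul hN hx
  have hsE : StaG (famE hT z).A μ := fun e x hx => ME_mul hN hx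
  have hgV : GraG dg (famV hT z).A := fun v x hx c => MV_res hz {c} hx
  have hgE : GraG dg (famE hT z).A := fun e x hx c => ME_res hz {c} hx
  have hGV := genV (z := z) ha hT hep hve
  have hGE := genE (z := z) ha hT hep
  let Z0 : Matrix (J ⊕ (Λ × Fin m)) (J × Fin n0) (MonoidAlgebra k Γ) := fun a =>
    lf vt (Sum.elim (fun _ : J => b) (fun p : Λ × Fin m => ve (ep p.2)) a)
      (Sum.elim (fun j : J => Pi.single j (1 : MonoidAlgebra k Γ))
        (fun p : Λ × Fin m => uu T b z p.1 (ep p.2)) a)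
  let Z1 : Matrix (Λ × Fin m) (J × Fin n1) (MonoidAlgebra k Γ) := fun p =>
    lf et (ep p.2) (uu T b z p.1 (ep p.2))
  have hZ0 : LinearMap.range Z0.vecMulLinear = GM vt (famV hT z) := GM_range hvt hcV hGV
  have hZ1 : LinearMap.range Z1.vecMulLinear = GM et (famE hT z) := GM_range het hcE hGE
  refine ⟨{
    J0 := J × Fin n0
    J1 := J × Fin n1
    L0 := J ⊕ (Λ × Fin m)
    L1 := Λ × Fin m
    d0 := fun p => (dg p.1, vt p.2)
    d1 := fun p => (dg p.1, et p.2)
    μ0 := th vt μ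
    μ1 := th et μ
    P := sm k Γ J (Fin n0)
    Δ := dl T k J vt et
    Z0 := Z0
    Z1 := Z1
    c0 := Sum.elim (fun j => (dg j, b)) (fun p => (c p.1, ve (ep p.2)))
    c1 := fun p => (c p.1, ep p.2)
    hom0 := ?_
    hom1 := ?_
    orb0 := ?_
    orb1 := ?_
    orbJ0 := fun p => ⟨p.1, 1, (one_smul Γ (dg p.1)).symm⟩
    orbJ1 := fun p => ⟨p.1, 1, (one_smul Γ (dg p.1)).symm⟩
    gr0 := ?_
    gr1 := ?_
    surj := ?_
    maps := ?_
    inj := ?_
    comp := ?_
    exact := ?_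
    end0 := ?_
    end1 := ?_
    comm0 := ?_
    comm1 := ?_
    chain0 := ?_
    chain1 := ?_ }⟩
  · rintro (j | p)
    · exact spt_pair_lf (spt_single dg j) b
    · exact spt_pair_lf (spt_res' (hz p.1) _) _
  · intro p
    exact spt_pair_lf (spt_res' (hz p.1) _) _
  · rintro (j | p)
    · exact ⟨j, 1, (one_smul Γ (dg j)).symm⟩
    · exact hc p.1
  · exact fun p => hc p.1
  · intro x hx p
    rw [hZ0] at hx ⊢
    exact GM_res hvt hcV hgV hx p
  · intro x hx p
    rw [hZ1] at hx ⊢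
    exact GM_res het hcE hgE hx p
  · intro x
    rw [hZ0]
    obtain ⟨F, hF⟩ := exists_degrees (fun _ : J => b) x
    obtain ⟨y, hy, hy2⟩ := GM_surj hvt hcV F (fun v => res (fun _ : J => b) {v} x)
      (fun v _ => MV_of_spt ha (spt_res _ _ _))
    exact ⟨y, hy, hy2.trans hF.sum_res⟩
  · intro x hx
    rw [hZ1] at hx
    rw [hZ0]
    exact dl_mem hT hvt het hcV hcE hx
  · intro x _ hx
    exact dl_inj hvt het h hV₀ hE₀ x hx
  · ext1 p j
    have h1 := congrFun (dl_sm hvt het h hV₀ hE₀ (Pi.single p (1 : MonoidAlgebra k Γ))) j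
    rw [Matrix.vecMul_vecMul, Matrix.single_one_vecMul] at h1
    exact h1
  · intro x hx h0
    rw [hZ0] at hx
    rw [hZ1]
    exact ⟨_, chain_mem hT hvt het hcE hx h0, dl_exact hvt het h hV₀ hE₀ x h0⟩
  · intro x hx
    rw [hZ0] at hx ⊢
    exact GM_th hvt hcV hsV hx
  · intro x hx
    rw [hZ1] at hx ⊢
    exact GM_th het hcE hsE hx
  · intro x hx
    rw [hZ0] at hx
    exact GM_th_sm hvt hcV hsV hx
  · intro x hx
    rw [hZ1] at hx
    exact dl_th hT hvt het hcV hcE hsE hx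
  · intro l hl x hx
    rw [hZ0] at hx
    exact GM_chain hvt hcV hsV hgV hd l hl hx
  · intro l hl x hx
    rw [hZ1] at hx
    exact GM_chain het hcE hsE hgE hd l hl hx

end Pool.Agent.NegK.TT
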